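import Mathlib

/-!
# Structures on a finite letter set over `ZMod 2` : base file

`St A S c1 c2 a b` : the pair `f = (a, b)` is a structure (letters present: `S`), with the constant `c = (c1, c2)`.
`Fg A S r g Z` : number modulo 2 of the structures with constant `(g, 0)`, `f r = (1, 0)` and `f = (0, 1)` on `Z`.
The key lemma `Fg_key` deletes a letter: it compares two linear systems with the same matrix.
-/

namespace Pool.LAW

open Finset

variable {V : Type*} [Fintype V] [DecidableEq V]

/-- `f = (a, b)` is a structure on the letter set `S` with constant `(c1, c2)`. -/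
def St (A : V → V → ZMod 2) (S : Finset V) (c1 c2 : ZMod 2) (a b : V → ZMod 2) : Prop :=
  (∀ x, x ∈ S ↔ ¬(a x = 0 ∧ b x = 0)) ∧ ∑ x, a x = 0 ∧ ∑ x, b x = 0 ∧
  ∀ x, b x * (c1 + ∑ y, A x y * a y) = a x * (c2 + ∑ y, A x y * b y)

instance (A : V → V → ZMod 2) (S : Finset V) (c1 c2 : ZMod 2) (a b : V → ZMod 2) :
    Decidable (St A S c1 c2 a b) := by
  unfold St
  infer_instance

/-- number modulo 2 of the structures with constant `(g, 0)`, value `(1, 0)` at `r` and `(0, 1)` on `Z` -/
def Fg (A : V → V → ZMod 2) (S : Finset V) (r : V) (g : ZMod 2) (Z : Finset V) : ZMod 2 :=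
  ∑ a : V → ZMod 2, ∑ b : V → ZMod 2,
    if St A S g 0 a b ∧ a r = 1 ∧ b r = 0 ∧ (∀ z ∈ Z, a z = 0 ∧ b z = 1) then 1 else 0

theorem z2 (x : ZMod 2) : x = 0 ∨ x = 1 := by
  revert x; decide

theorem z2_ne (x : ZMod 2) (h : x ≠ 0) : x = 1 := by
  revert x; decide

theorem z2_add (x : ZMod 2) : x + x = 0 := CharTwo.add_self_eq_zero x

theorem z2_eq_of_add {x y : ZMod 2} (h : x + y = 0) : x = y := by
  revert x y; decide

/-- the number modulo 2 of the solutions of a linear system with a square matrix does not depend on
the right hand side -/
theorem parity {G : Type*} [AddCommGroup G] [Fintype G] [DecidableEq G] (h2 : ∀ g : G, g + g = 0)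
    (T : G → G) (hT : ∀ x y, T (x + y) = T x + T y) (e e' : G) :
    (∑ x : G, if T x = e then (1 : ZMod 2) else 0) = ∑ x : G, if T x = e' then (1 : ZMod 2) else 0 := by
  by_cases h : Function.Injective T
  · have hb : Function.Bijective T := Finite.injective_iff_bijective.mp h
    have key : ∀ e : G, (∑ x : G, if T x = e then (1 : ZMod 2) else 0) = 1 := by
      intro e
      obtain ⟨x0, hx0⟩ := hb.2 e
      rw [Finset.sum_eq_single x0]
      · rw [if_pos hx0]
      · intro x _ hx
        rw [if_neg]
        intro hxe
        exact hx (h (hxe.trans hx0.symm))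
      · intro hx
        exact absurd (Finset.mem_univ x0) hx
    rw [key e, key e']
  · have : ∃ k : G, k ≠ 0 ∧ T k = 0 := by
      by_contra hcon
      apply h
      intro x y hxy
      by_contra hne
      apply hcon
      refine ⟨x + y, ?_, ?_⟩
      · intro h0
        apply hne
        have h1 : x + y + y = y := by rw [h0, zero_add]
        rw [add_assoc, h2 y, add_zero] at h1
        exact h1
      · rw [hT, hxy, h2]
    obtain ⟨k, hk0, hk⟩ := this
    have key : ∀ e : G, (∑ x : G, if T x = e then (1 : ZMod 2) else 0) = 0 := by
      intro e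
      refine Finset.sum_involution (fun x _ => x + k) ?_ ?_ ?_ ?_
      · intro x _
        have : T (x + k) = T x := by rw [hT, hk, add_zero]
        rw [this]
        exact z2_add _
      · intro x _ _ hx
        apply hk0
        exact add_eq_left.mp hx
      · intro x _
        exact Finset.mem_univ _
      · intro x _
        change x + k + k = x
        rw [add_assoc, h2 k, add_zero]
    rw [key e, key e']

/-- the operator of the linear system -/
def Top (A : V → V → ZMod 2) (r : V) (g : ZMod 2) (a : V → ZMod 2) (b : V → ZMod 2) : V → ZMod 2 :=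
  fun x => if x = r then (∑ y ∈ univ.erase r, b y) else
    if a x = 0 then b x else b x * (g + ∑ y, A x y * a y) + (∑ y, A x y * b y) + b r

theorem Top_add (A : V → V → ZMod 2) (r : V) (g : ZMod 2) (a : V → ZMod 2) (b b' : V → ZMod 2) :
    Top A r g a (b + b') = Top A r g a b + Top A r g a b' := by
  funext x
  unfold Top
  simp only [Pi.add_apply]
  by_cases hx : x = r
  · simp only [if_pos hx, Finset.sum_add_distrib]
  · simp only [if_neg hx]
    by_cases ha : a x = 0
    · simp only [if_pos ha]
    · simp only [if_neg ha]
      have : (∑ y, A x y * (b y + b' y)) = (∑ y, A x y * b y) + ∑ y, A x y * b' y := by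
        rw [← Finset.sum_add_distrib]
        apply Finset.sum_congr rfl
        intro y _
        ring
      rw [this]
      ring

/-- right hand side of the linear system -/
def rhs (S : Finset V) (a : V → ZMod 2) : V → ZMod 2 := fun x => if x ∈ S ∧ a x = 0 then 1 else 0

/-- the linear system describes the structures with given `a` -/
theorem Top_iff (A : V → V → ZMod 2) (hA : ∀ x y, A x y = A y x) (r : V) (hr : ∀ x, A r x = 0)
    (S : Finset V) (g : ZMod 2) (a b : V → ZMod 2) (har : a r = 1) (hsa : ∑ x, a x = 0)
    (hS : ∀ x, x ∉ S → a x = 0) (hC : ∀ x ∈ S, a x = 0 → g + ∑ y, A x y * a y = 0) :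
    Top A r g a b = rhs S a ↔ St A S g 0 a b ∧ b r = 0 := by
  have hrS : r ∈ S := by
    by_contra h
    have := hS r h
    rw [har] at this
    exact one_ne_zero this
  constructor
  · intro h
    have hne : ∀ x, a x = 0 → x ≠ r := by
      intro x hx hxr
      rw [hxr, har] at hx
      exact one_ne_zero hx
    have h0 : ∀ x, a x = 0 → b x = rhs S a x := by
      intro x hx
      have := congrFun h x
      unfold Top at this
      simp only [if_neg (hne x hx), if_pos hx] at this
      exact this
    have h1 : ∀ x, x ≠ r → a x ≠ 0 →
        b x * (g + ∑ y, A x y * a y) + (∑ y, A x y * b y) + b r = 0 := by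
      intro x hx hax
      have := congrFun h x
      unfold Top rhs at this
      simp only [if_neg hx, if_neg hax] at this
      rw [this, if_neg (fun hh => hax hh.2)]
    have hsum : ∑ y ∈ univ.erase r, b y = 0 := by
      have := congrFun h r
      unfold Top rhs at this
      simp only [if_true] at this
      rw [this, if_neg]
      intro hh
      rw [har] at hh
      exact one_ne_zero hh.2
    have hsb : ∑ y, b y = b r := by
      rw [← Finset.add_sum_erase univ b (Finset.mem_univ r), hsum, add_zero]
    -- the two pointwise identities
    have hstar : ∀ x, (1 + a x) * (b x * (g + ∑ y, A x y * a y)) = 0 := by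
      intro x
      rcases z2 (a x) with hx | hx
      · by_cases hxS : x ∈ S
        · rw [hC x hxS hx]; ring
        · have : b x = 0 := by
            rw [h0 x hx]; unfold rhs
            rw [if_neg (fun hh => hxS hh.1)]
          rw [this]; ring
      · rw [hx]
        have : (1 : ZMod 2) + 1 = 0 := by decide
        rw [this]; ring
    have hdag : ∀ x, a x * (b x * (g + ∑ y, A x y * a y) + (∑ y, A x y * b y) + b r) =
        if x = r then b r * g + b r else 0 := by
      intro x
      by_cases hx : x = r
      · rw [if_pos hx, hx, har]
        have e1 : (∑ y, A r y * a y) = 0 := Finset.sum_eq_zero (fun y _ => by rw [hr y, zero_mul])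
        have e2 : (∑ y, A r y * b y) = 0 := Finset.sum_eq_zero (fun y _ => by rw [hr y, zero_mul])
        rw [e1, e2]; ring
      · rw [if_neg hx]
        by_cases hax : a x = 0
        · rw [hax, zero_mul]
        · rw [h1 x hx hax, mul_zero]
    have hswap : (∑ x, a x * ∑ y, A x y * b y) = ∑ x, b x * ∑ y, A x y * a y := by
      simp only [Finset.mul_sum]
      rw [Finset.sum_comm]
      apply Finset.sum_congr rfl
      intro x _
      apply Finset.sum_congr rfl
      intro y _
      rw [hA y x]; ring
    have hbr : b r = 0 := by
      have s1 : (∑ x, a x * (b x * (g + ∑ y, A x y * a y) + (∑ y, A x y * b y) + b r)) =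
          b r * g + b r := by
        rw [Finset.sum_congr rfl (fun x _ => hdag x), Finset.sum_ite_eq' univ r, if_pos (mem_univ r)]
      have s2 : (∑ x, (1 + a x) * (b x * (g + ∑ y, A x y * a y))) = 0 :=
        Finset.sum_eq_zero (fun x _ => hstar x)
      have s3 : (∑ x, a x * (b x * (g + ∑ y, A x y * a y) + (∑ y, A x y * b y) + b r)) +
          (∑ x, (1 + a x) * (b x * (g + ∑ y, A x y * a y))) =
          (∑ x, (2 * (a x * (b x * (g + ∑ y, A x y * a y))) + g * b x)) +
          ((∑ x, a x * ∑ y, A x y * b y) + ∑ x, b x * ∑ y, A x y * a y) + (∑ x, a x) * b r := by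
        rw [Finset.sum_mul, ← Finset.sum_add_distrib, ← Finset.sum_add_distrib,
          ← Finset.sum_add_distrib, ← Finset.sum_add_distrib]
        apply Finset.sum_congr rfl
        intro x _
        ring
      have two0 : (2 : ZMod 2) = 0 := by decide
      rw [s1, s2, hswap, z2_add, hsa] at s3
      simp only [two0, zero_mul, zero_add, add_zero] at s3
      rw [← Finset.mul_sum, hsb] at s3
      have s4 : b r * g + b r + g * b r = 0 := by rw [s3]; exact z2_add _
      have s5 : b r + 2 * (b r * g) = 0 := by
        rw [← s4]; ring
      rw [two0, zero_mul, add_zero] at s5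
      exact s5
    refine ⟨⟨?_, hsa, ?_, ?_⟩, hbr⟩
    · intro x
      constructor
      · intro hx hh
        have := h0 x hh.1
        unfold rhs at this
        rw [if_pos ⟨hx, hh.1⟩, hh.2] at this
        exact zero_ne_one this
      · intro hh
        by_contra hx
        apply hh
        refine ⟨hS x hx, ?_⟩
        rw [h0 x (hS x hx)]
        unfold rhs
        rw [if_neg (fun hc => hx hc.1)]
    · rw [hsb, hbr]
    · intro x
      rcases z2 (a x) with hx | hx
      · have := hstar x
        rw [hx, add_zero, one_mul] at this
        rw [this, hx, zero_mul]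
      · by_cases hxr : x = r
        · have e2 : (∑ y, A r y * b y) = 0 :=
            Finset.sum_eq_zero (fun y _ => by rw [hr y, zero_mul])
          rw [hxr, hbr, e2]; ring
        · have := h1 x hxr (by rw [hx]; exact one_ne_zero)
          rw [hbr, add_zero] at this
          rw [hx, one_mul, zero_add]
          exact z2_eq_of_add this
  · rintro ⟨⟨hsup, _, hsb, hR⟩, hbr⟩
    funext x
    unfold Top rhs
    by_cases hx : x = r
    · rw [if_pos hx, hx, if_neg]
      · have := Finset.add_sum_erase univ b (Finset.mem_univ r)
        rw [hsb, hbr, zero_add] at this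
        exact this
      · intro hh
        rw [har] at hh
        exact one_ne_zero hh.2
    · rw [if_neg hx]
      by_cases hax : a x = 0
      · rw [if_pos hax]
        by_cases hxS : x ∈ S
        · rw [if_pos ⟨hxS, hax⟩]
          apply z2_ne
          intro hbx
          exact (hsup x).mp hxS ⟨hax, hbx⟩
        · rw [if_neg (fun hh => hxS hh.1)]
          by_contra hbx
          exact hxS ((hsup x).mpr (fun hh => hbx hh.2))
      · rw [if_neg hax, if_neg (fun hh => hax hh.2), hbr, add_zero, hR x, z2_ne _ hax, one_mul,
          zero_add, z2_add]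

end Pool.LAW
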