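import Pool.Agent.LAW.Main

/-!
# The hypothesis of Theorem A
-/

namespace Pool.LAW

open Finset

variable {V : Type*} [Fintype V] [DecidableEq V]

/-- At every letter `v` the structures on the other letters are constant on `K v` and on its
complement, both are nonempty, `K v` is even, and the two-coloured functions with these classes are
structures for exactly one constant. -/
structure HypH (A : V → V → ZMod 2) (K : V → Finset V) : Prop where
  mem : ∀ v, v ∉ K v
  ne1 : ∀ v, (K v).Nonempty
  ne2 : ∀ v, ∃ x, x ≠ v ∧ x ∉ K v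
  even : ∀ v, Even (K v).card
  const : ∀ v (F : V → ZMod 2 × ZMod 2) (c : ZMod 2 × ZMod 2), Str A (univ.erase v) F c →
    (∀ x ∈ K v, ∀ y ∈ K v, F x = F y) ∧
    (∀ x, x ≠ v → x ∉ K v → ∀ y, y ≠ v → y ∉ K v → F x = F y)
  exun : ∀ v (s t : ZMod 2 × ZMod 2), s ≠ 0 → t ≠ 0 → s ≠ t →
    ∃! c, Str A (univ.erase v) (fun x => if x = v then 0 else if x ∈ K v then s else t) c

end Pool.LAW
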