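import Pool.Agent.LAW.Base

/-!
# Deletion of a letter, the total number, the recursions
-/

namespace Pool.LAW

open Finset

variable {V : Type*} [Fintype V] [DecidableEq V]

/-- for fixed `a` the structures on `S` are counted by any right hand side -/
theorem inner_eq (A : V → V → ZMod 2) (hA : ∀ x y, A x y = A y x) (r : V) (hr : ∀ x, A r x = 0)
    (S S' : Finset V) (g : ZMod 2) (a : V → ZMod 2) (har : a r = 1) (hsa : ∑ x, a x = 0)
    (hS : ∀ x, x ∉ S → a x = 0) (hC : ∀ x ∈ S, a x = 0 → g + ∑ y, A x y * a y = 0)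
    (hS' : ∀ x, x ∉ S' → a x = 0) (hC' : ∀ x ∈ S', a x = 0 → g + ∑ y, A x y * a y = 0) :
    (∑ b : V → ZMod 2, if St A S g 0 a b ∧ b r = 0 then (1 : ZMod 2) else 0) =
    ∑ b : V → ZMod 2, if St A S' g 0 a b ∧ b r = 0 then (1 : ZMod 2) else 0 := by
  have h := parity (G := V → ZMod 2) (fun f => by funext x; exact z2_add (f x)) (Top A r g a)
    (Top_add A r g a) (rhs S a) (rhs S' a)
  have e1 : (∑ b : V → ZMod 2, if St A S g 0 a b ∧ b r = 0 then (1 : ZMod 2) else 0) =
      ∑ b : V → ZMod 2, if Top A r g a b = rhs S a then (1 : ZMod 2) else 0 := by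
    apply Finset.sum_congr rfl
    intro b _
    exact if_congr (Top_iff A hA r hr S g a b har hsa hS hC).symm rfl rfl
  have e2 : (∑ b : V → ZMod 2, if St A S' g 0 a b ∧ b r = 0 then (1 : ZMod 2) else 0) =
      ∑ b : V → ZMod 2, if Top A r g a b = rhs S' a then (1 : ZMod 2) else 0 := by
    apply Finset.sum_congr rfl
    intro b _
    exact if_congr (Top_iff A hA r hr S' g a b har hsa hS' hC').symm rfl rfl
  rw [e1, e2, h]

/-- consequences of `St` for the first component -/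
theorem St_off {A : V → V → ZMod 2} {S : Finset V} {g g' : ZMod 2} {a b : V → ZMod 2}
    (h : St A S g g' a b) : ∀ x, x ∉ S → a x = 0 := by
  intro x hx
  by_contra hax
  exact hx ((h.1 x).mpr (fun hh => hax hh.1))

theorem St_one {A : V → V → ZMod 2} {S : Finset V} {g g' : ZMod 2} {a b : V → ZMod 2}
    (h : St A S g g' a b) : ∀ x ∈ S, a x = 0 → b x = 1 := by
  intro x hx hax
  apply z2_ne
  intro hbx
  exact (h.1 x).mp hx ⟨hax, hbx⟩

theorem St_C {A : V → V → ZMod 2} {S : Finset V} {g g' : ZMod 2} {a b : V → ZMod 2}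
    (h : St A S g g' a b) : ∀ x ∈ S, a x = 0 → g + ∑ y, A x y * a y = 0 := by
  intro x hx hax
  have h1 := h.2.2.2 x
  rw [St_one h x hx hax, hax, one_mul, zero_mul] at h1
  exact h1

/-- the key lemma for fixed `a` -/
theorem key_a (A : V → V → ZMod 2) (hA : ∀ x y, A x y = A y x) (r : V) (hr : ∀ x, A r x = 0)
    (S : Finset V) (g : ZMod 2) (u : V) (huS : u ∈ S) (Z : Finset V) (hZ : ∀ z ∈ Z, z ∈ S ∧ z ≠ u)
    (a : V → ZMod 2) :
    (∑ b : V → ZMod 2, if St A S g 0 a b ∧ a r = 1 ∧ b r = 0 ∧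
      (∀ z ∈ insert u Z, a z = 0 ∧ b z = 1) then (1 : ZMod 2) else 0) =
    (∑ b : V → ZMod 2, if St A (S.erase u) g 0 a b ∧ a r = 1 ∧ b r = 0 ∧
      (∀ z ∈ Z, a z = 0 ∧ b z = 1) then (1 : ZMod 2) else 0) * (1 + g + ∑ y, A u y * a y) := by
  by_cases H : a r = 1 ∧ ∑ x, a x = 0 ∧ (∀ x, x ∉ S.erase u → a x = 0) ∧ (∀ z ∈ Z, a z = 0) ∧
      (∀ x ∈ S.erase u, a x = 0 → g + ∑ y, A x y * a y = 0)
  · obtain ⟨har, hsa, hoff, haZ, hC'⟩ := H
    have hau : a u = 0 := hoff u (fun h => (Finset.mem_erase.mp h).1 rfl)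
    have hoffS : ∀ x, x ∉ S → a x = 0 := fun x hx =>
      hoff x (fun h => hx (Finset.mem_of_mem_erase h))
    have eR : (∑ b : V → ZMod 2, if St A (S.erase u) g 0 a b ∧ a r = 1 ∧ b r = 0 ∧
        (∀ z ∈ Z, a z = 0 ∧ b z = 1) then (1 : ZMod 2) else 0) =
        ∑ b : V → ZMod 2, if St A (S.erase u) g 0 a b ∧ b r = 0 then (1 : ZMod 2) else 0 := by
      apply Finset.sum_congr rfl
      intro b _
      apply if_congr _ rfl rfl
      constructor
      · rintro ⟨h1, _, h2, _⟩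
        exact ⟨h1, h2⟩
      · rintro ⟨h1, h2⟩
        refine ⟨h1, har, h2, ?_⟩
        intro z hz
        exact ⟨haZ z hz, St_one h1 z (Finset.mem_erase.mpr ⟨(hZ z hz).2, (hZ z hz).1⟩) (haZ z hz)⟩
    have eL : (∑ b : V → ZMod 2, if St A S g 0 a b ∧ a r = 1 ∧ b r = 0 ∧
        (∀ z ∈ insert u Z, a z = 0 ∧ b z = 1) then (1 : ZMod 2) else 0) =
        ∑ b : V → ZMod 2, if St A S g 0 a b ∧ b r = 0 then (1 : ZMod 2) else 0 := by
      apply Finset.sum_congr rfl
      intro b _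
      apply if_congr _ rfl rfl
      constructor
      · rintro ⟨h1, _, h2, _⟩
        exact ⟨h1, h2⟩
      · rintro ⟨h1, h2⟩
        refine ⟨h1, har, h2, ?_⟩
        intro z hz
        rcases Finset.mem_insert.mp hz with hzu | hzZ
        · rw [hzu]
          exact ⟨hau, St_one h1 u huS hau⟩
        · exact ⟨haZ z hzZ, St_one h1 z (hZ z hzZ).1 (haZ z hzZ)⟩
    rw [eL, eR]
    rcases z2 (g + ∑ y, A u y * a y) with hu | hu
    · have hC : ∀ x ∈ S, a x = 0 → g + ∑ y, A x y * a y = 0 := by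
        intro x hx hax
        by_cases hxu : x = u
        · rw [hxu]; exact hu
        · exact hC' x (Finset.mem_erase.mpr ⟨hxu, hx⟩) hax
      rw [inner_eq A hA r hr S (S.erase u) g a har hsa hoffS hC hoff hC', add_assoc, hu, add_zero,
        mul_one]
    · have h11 : (1 : ZMod 2) + 1 = 0 := by decide
      rw [add_assoc, hu, h11, mul_zero]
      apply Finset.sum_eq_zero
      intro b _
      rw [if_neg]
      rintro ⟨h1, _⟩
      have := St_C h1 u huS hau
      rw [hu] at this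
      exact one_ne_zero this
  · have e1 : (∑ b : V → ZMod 2, if St A (S.erase u) g 0 a b ∧ a r = 1 ∧ b r = 0 ∧
        (∀ z ∈ Z, a z = 0 ∧ b z = 1) then (1 : ZMod 2) else 0) = 0 := by
      apply Finset.sum_eq_zero
      intro b _
      rw [if_neg]
      rintro ⟨h1, h2, h3, h4⟩
      exact H ⟨h2, h1.2.1, St_off h1, fun z hz => (h4 z hz).1, St_C h1⟩
    rw [e1, zero_mul]
    apply Finset.sum_eq_zero
    intro b _
    rw [if_neg]
    rintro ⟨h1, h2, h3, h4⟩
    apply H
    have hau : a u = 0 := (h4 u (Finset.mem_insert_self u Z)).1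
    refine ⟨h2, h1.2.1, ?_, fun z hz => (h4 z (Finset.mem_insert_of_mem hz)).1, ?_⟩
    · intro x hx
      by_cases hxu : x = u
      · rw [hxu]; exact hau
      · exact St_off h1 x (fun hxS => hx (Finset.mem_erase.mpr ⟨hxu, hxS⟩))
    · intro x hx hax
      exact St_C h1 x (Finset.mem_of_mem_erase hx) hax

/-- the recursion -/
theorem Fg_rec (A : V → V → ZMod 2) (hA : ∀ x y, A x y = A y x) (r : V) (hr : ∀ x, A r x = 0)
    (S : Finset V) (g : ZMod 2) (u : V) (huS : u ∈ S) (Z : Finset V)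
    (hZ : ∀ z ∈ Z, z ∈ S ∧ z ≠ u) :
    Fg A S r g (insert u Z) = (1 + g) * Fg A (S.erase u) r g Z +
      ∑ y ∈ S.erase u, A u y * (Fg A (S.erase u) r g Z + Fg A (S.erase u) r g (insert y Z)) := by
  -- the pointwise form
  have hpt : ∀ (y : V), y ∈ S.erase u → ∀ (a b : V → ZMod 2),
      (if St A (S.erase u) g 0 a b ∧ a r = 1 ∧ b r = 0 ∧
        (∀ z ∈ Z, a z = 0 ∧ b z = 1) then (1 : ZMod 2) else 0) * a y =
      (if St A (S.erase u) g 0 a b ∧ a r = 1 ∧ b r = 0 ∧
        (∀ z ∈ Z, a z = 0 ∧ b z = 1) then (1 : ZMod 2) else 0) +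
      (if St A (S.erase u) g 0 a b ∧ a r = 1 ∧ b r = 0 ∧
        (∀ z ∈ insert y Z, a z = 0 ∧ b z = 1) then (1 : ZMod 2) else 0) := by
    intro y hy a b
    by_cases h : St A (S.erase u) g 0 a b ∧ a r = 1 ∧ b r = 0 ∧ (∀ z ∈ Z, a z = 0 ∧ b z = 1)
    · rw [if_pos h]
      rcases z2 (a y) with hay | hay
      · rw [if_pos, hay]
        · decide
        · refine ⟨h.1, h.2.1, h.2.2.1, ?_⟩
          intro z hz
          rcases Finset.mem_insert.mp hz with hzy | hzZ
          · rw [hzy]; exact ⟨hay, St_one h.1 y hy hay⟩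
          · exact h.2.2.2 z hzZ
      · rw [if_neg, hay]
        · decide
        · intro hh
          have := (hh.2.2.2 y (Finset.mem_insert_self y Z)).1
          rw [hay] at this
          exact one_ne_zero this
    · rw [if_neg h, if_neg]
      · ring
      · intro hh
        exact h ⟨hh.1, hh.2.1, hh.2.2.1, fun z hz => hh.2.2.2 z (Finset.mem_insert_of_mem hz)⟩
  have hoff : ∀ (y : V), y ∉ S.erase u → ∀ (a b : V → ZMod 2),
      (if St A (S.erase u) g 0 a b ∧ a r = 1 ∧ b r = 0 ∧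
        (∀ z ∈ Z, a z = 0 ∧ b z = 1) then (1 : ZMod 2) else 0) * a y = 0 := by
    intro y hy a b
    by_cases h : St A (S.erase u) g 0 a b ∧ a r = 1 ∧ b r = 0 ∧ (∀ z ∈ Z, a z = 0 ∧ b z = 1)
    · rw [St_off h.1 y hy, mul_zero]
    · rw [if_neg h, zero_mul]
  have e1 : Fg A S r g (insert u Z) = ∑ a : V → ZMod 2, ∑ b : V → ZMod 2,
      (if St A (S.erase u) g 0 a b ∧ a r = 1 ∧ b r = 0 ∧
        (∀ z ∈ Z, a z = 0 ∧ b z = 1) then (1 : ZMod 2) else 0) * (1 + g + ∑ y, A u y * a y) := by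
    unfold Fg
    apply Finset.sum_congr rfl
    intro a _
    rw [key_a A hA r hr S g u huS Z hZ a, Finset.sum_mul]
  have e2 : ∀ a b : V → ZMod 2, (if St A (S.erase u) g 0 a b ∧ a r = 1 ∧ b r = 0 ∧
        (∀ z ∈ Z, a z = 0 ∧ b z = 1) then (1 : ZMod 2) else 0) * (1 + g + ∑ y, A u y * a y) =
      (1 + g) * (if St A (S.erase u) g 0 a b ∧ a r = 1 ∧ b r = 0 ∧
        (∀ z ∈ Z, a z = 0 ∧ b z = 1) then (1 : ZMod 2) else 0) +
      ∑ y ∈ S.erase u, A u y * ((if St A (S.erase u) g 0 a b ∧ a r = 1 ∧ b r = 0 ∧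
        (∀ z ∈ Z, a z = 0 ∧ b z = 1) then (1 : ZMod 2) else 0) +
      (if St A (S.erase u) g 0 a b ∧ a r = 1 ∧ b r = 0 ∧
        (∀ z ∈ insert y Z, a z = 0 ∧ b z = 1) then (1 : ZMod 2) else 0)) := by
    intro a b
    rw [mul_add, mul_comm _ (1 + g), Finset.mul_sum]
    congr 1
    rw [← Finset.sum_subset (Finset.subset_univ (S.erase u))]
    · apply Finset.sum_congr rfl
      intro y hy
      rw [← hpt y hy a b]; ring
    · intro y _ hy
      have := hoff y hy a b
      calc _ = A u y * ((if St A (S.erase u) g 0 a b ∧ a r = 1 ∧ b r = 0 ∧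
        (∀ z ∈ Z, a z = 0 ∧ b z = 1) then (1 : ZMod 2) else 0) * a y) := by ring
        _ = 0 := by rw [this, mul_zero]
  rw [e1]
  have e3 : (∑ a : V → ZMod 2, ∑ b : V → ZMod 2,
      (if St A (S.erase u) g 0 a b ∧ a r = 1 ∧ b r = 0 ∧
        (∀ z ∈ Z, a z = 0 ∧ b z = 1) then (1 : ZMod 2) else 0) * (1 + g + ∑ y, A u y * a y)) =
      ∑ a : V → ZMod 2, ∑ b : V → ZMod 2,
      ((1 + g) * (if St A (S.erase u) g 0 a b ∧ a r = 1 ∧ b r = 0 ∧
        (∀ z ∈ Z, a z = 0 ∧ b z = 1) then (1 : ZMod 2) else 0) +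
      ∑ y ∈ S.erase u, A u y * ((if St A (S.erase u) g 0 a b ∧ a r = 1 ∧ b r = 0 ∧
        (∀ z ∈ Z, a z = 0 ∧ b z = 1) then (1 : ZMod 2) else 0) +
      (if St A (S.erase u) g 0 a b ∧ a r = 1 ∧ b r = 0 ∧
        (∀ z ∈ insert y Z, a z = 0 ∧ b z = 1) then (1 : ZMod 2) else 0))) := by
    apply Finset.sum_congr rfl
    intro a _
    apply Finset.sum_congr rfl
    intro b _
    exact e2 a b
  rw [e3]
  unfold Fg
  simp only [Finset.sum_add_distrib, Finset.mul_sum]
  congr 1
  -- exchange the sums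
  have e4 : (∑ a : V → ZMod 2, ∑ b : V → ZMod 2, ∑ y ∈ S.erase u,
      A u y * ((if St A (S.erase u) g 0 a b ∧ a r = 1 ∧ b r = 0 ∧
        (∀ z ∈ Z, a z = 0 ∧ b z = 1) then (1 : ZMod 2) else 0) +
      (if St A (S.erase u) g 0 a b ∧ a r = 1 ∧ b r = 0 ∧
        (∀ z ∈ insert y Z, a z = 0 ∧ b z = 1) then (1 : ZMod 2) else 0))) =
      ∑ y ∈ S.erase u, ∑ a : V → ZMod 2, ∑ b : V → ZMod 2,
      A u y * ((if St A (S.erase u) g 0 a b ∧ a r = 1 ∧ b r = 0 ∧
        (∀ z ∈ Z, a z = 0 ∧ b z = 1) then (1 : ZMod 2) else 0) +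
      (if St A (S.erase u) g 0 a b ∧ a r = 1 ∧ b r = 0 ∧
        (∀ z ∈ insert y Z, a z = 0 ∧ b z = 1) then (1 : ZMod 2) else 0)) := by
    have : ∀ a : V → ZMod 2, (∑ b : V → ZMod 2, ∑ y ∈ S.erase u,
      A u y * ((if St A (S.erase u) g 0 a b ∧ a r = 1 ∧ b r = 0 ∧
        (∀ z ∈ Z, a z = 0 ∧ b z = 1) then (1 : ZMod 2) else 0) +
      (if St A (S.erase u) g 0 a b ∧ a r = 1 ∧ b r = 0 ∧
        (∀ z ∈ insert y Z, a z = 0 ∧ b z = 1) then (1 : ZMod 2) else 0))) =
      ∑ y ∈ S.erase u, ∑ b : V → ZMod 2,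
      A u y * ((if St A (S.erase u) g 0 a b ∧ a r = 1 ∧ b r = 0 ∧
        (∀ z ∈ Z, a z = 0 ∧ b z = 1) then (1 : ZMod 2) else 0) +
      (if St A (S.erase u) g 0 a b ∧ a r = 1 ∧ b r = 0 ∧
        (∀ z ∈ insert y Z, a z = 0 ∧ b z = 1) then (1 : ZMod 2) else 0)) := by
      intro a
      exact Finset.sum_comm
    rw [Finset.sum_congr rfl (fun a _ => this a)]
    exact Finset.sum_comm
  rw [e4]
  apply Finset.sum_congr rfl
  intro y _
  simp only [mul_add, Finset.sum_add_distrib, Finset.mul_sum]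

/-- addition of the second component to the first one -/
theorem St_shift {A : V → V → ZMod 2} {S : Finset V} {g : ZMod 2} {a b : V → ZMod 2}
    (h : St A S g 0 a b) : St A S g 0 (a + b) b := by
  obtain ⟨h1, h2, h3, h4⟩ := h
  refine ⟨?_, ?_, h3, ?_⟩
  · intro x
    rw [h1 x]
    simp only [Pi.add_apply]
    constructor
    · intro h hh
      apply h
      have hb := hh.2
      have ha := hh.1
      rw [hb, add_zero] at ha
      exact ⟨ha, hb⟩
    · intro h hh
      apply h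
      rw [hh.1, hh.2, add_zero]
      exact ⟨rfl, rfl⟩
  · simp only [Pi.add_apply, Finset.sum_add_distrib, h2, h3, add_zero]
  · intro x
    have := h4 x
    simp only [Pi.add_apply, mul_add, Finset.sum_add_distrib]
    simp only [mul_add] at this
    rw [← add_assoc, this]
    ring

/-- the total number -/
theorem Fg_empty (A : V → V → ZMod 2) (r : V) (S : Finset V) (g : ZMod 2) (hrS : r ∈ S) :
    Fg A S r g ∅ = 1 + (S.card : ZMod 2) := by
  unfold Fg
  rw [Finset.sum_comm]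
  rw [Finset.sum_eq_single (0 : V → ZMod 2)]
  · rw [Finset.sum_eq_single (fun x => if x ∈ S then (1 : ZMod 2) else 0)]
    · have hs : (∑ x : V, if x ∈ S then (1 : ZMod 2) else 0) = (S.card : ZMod 2) := by
        rw [Finset.sum_ite_mem, Finset.univ_inter, Finset.sum_const, nsmul_eq_mul, mul_one]
      rcases z2 (S.card : ZMod 2) with hc | hc
      · rw [if_pos, hc, add_zero]
        refine ⟨⟨?_, ?_, ?_, ?_⟩, ?_, ?_, ?_⟩
        · intro x
          simp only [Pi.zero_apply, and_true]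
          by_cases hx : x ∈ S
          · simp [hx]
          · simp [hx]
        · rw [hs, hc]
        · simp
        · intro x
          simp
        · simp [hrS]
        · rfl
        · simp
      · rw [if_neg, hc]
        · decide
        · rintro ⟨⟨_, h, _⟩, _⟩
          rw [hs, hc] at h
          exact one_ne_zero h
    · intro a _ ha
      rw [if_neg]
      rintro ⟨⟨h1, _⟩, _⟩
      apply ha
      funext x
      have := h1 x
      simp only [Pi.zero_apply, and_true] at this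
      by_cases hx : x ∈ S
      · simp only [hx, if_true]
        exact z2_ne _ (this.mp hx)
      · simp only [hx, if_false]
        by_contra hne
        exact hx (this.mpr hne)
    · intro h
      exact absurd (Finset.mem_univ _) h
  · intro b _ hb
    have hiff : ∀ a : V → ZMod 2,
        (St A S g 0 a b ∧ a r = 1 ∧ b r = 0 ∧ (∀ z ∈ (∅ : Finset V), a z = 0 ∧ b z = 1)) →
        (St A S g 0 (a + b) b ∧ (a + b) r = 1 ∧ b r = 0 ∧
          (∀ z ∈ (∅ : Finset V), (a + b) z = 0 ∧ b z = 1)) := by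
      rintro a ⟨h1, h5, h6, _⟩
      refine ⟨St_shift h1, ?_, h6, by simp⟩
      rw [Pi.add_apply, h5, h6, add_zero]
    have hinv : ∀ a : V → ZMod 2, a + b + b = a := by
      intro a
      funext x
      simp only [Pi.add_apply]
      rw [add_assoc, z2_add, add_zero]
    refine Finset.sum_involution (fun a _ => a + b) ?_ ?_ ?_ ?_
    · intro a _
      by_cases h : St A S g 0 a b ∧ a r = 1 ∧ b r = 0 ∧ (∀ z ∈ (∅ : Finset V), a z = 0 ∧ b z = 1)
      · rw [if_pos h, if_pos (hiff a h)]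
        decide
      · rw [if_neg h, if_neg, add_zero]
        intro hh
        apply h
        have := hiff (a + b) hh
        rw [hinv] at this
        exact this
    · intro a _ _ hab
      apply hb
      exact add_eq_left.mp hab
    · intro a _
      exact Finset.mem_univ _
    · intro a _
      exact hinv a
  · intro h
    exact absurd (Finset.mem_univ _) h

end Pool.LAW
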