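import Pool.Agent.LAW.Key

/-!
# The laws, normalised form (the root `r` has no neighbour)
-/

namespace Pool.LAW

open Finset

variable {V : Type*} [Fintype V] [DecidableEq V]

/-- number modulo 2 of the structures with `f r = (1, 0)` and `f = (0, 1)` on `Z`, normalised form -/
def Fs (A : V → V → ZMod 2) (S : Finset V) (r : V) (Z : Finset V) : ZMod 2 :=
  Fg A S r 0 Z + Fg A S r 1 Z

omit [Fintype V] in
theorem card_er {S : Finset V} {v : V} (h : v ∈ S) :
    ((S.erase v).card : ZMod 2) = (S.card : ZMod 2) + 1 := by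
  have := Finset.card_erase_add_one h
  have h2 : (((S.erase v).card + 1 : ℕ) : ZMod 2) = (S.card : ZMod 2) := by rw [this]
  push_cast at h2
  rw [← h2, add_assoc, z2_add, add_zero]

theorem z2_mul_add (x : ZMod 2) : x * (x + 1) = 0 := by
  revert x; decide

theorem z2_sq (x : ZMod 2) : (x + 1) * (x + 1) = x + 1 := by
  revert x; decide

theorem Fg_rec1 (A : V → V → ZMod 2) (hA : ∀ x y, A x y = A y x) (r : V) (hr : ∀ x, A r x = 0)
    (S : Finset V) (u : V) (huS : u ∈ S) (Z : Finset V)
    (hZ : ∀ z ∈ Z, z ∈ S ∧ z ≠ u) :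
    Fg A S r 1 (insert u Z) =
      ∑ y ∈ S.erase u, A u y * (Fg A (S.erase u) r 1 Z + Fg A (S.erase u) r 1 (insert y Z)) := by
  rw [Fg_rec A hA r hr S 1 u huS Z hZ]
  have : (1 : ZMod 2) + 1 = 0 := by decide
  rw [this, zero_mul, zero_add]

theorem Fs_rec (A : V → V → ZMod 2) (hA : ∀ x y, A x y = A y x) (r : V) (hr : ∀ x, A r x = 0)
    (S : Finset V) (u : V) (huS : u ∈ S) (Z : Finset V)
    (hZ : ∀ z ∈ Z, z ∈ S ∧ z ≠ u) :
    Fs A S r (insert u Z) = Fg A (S.erase u) r 0 Z +
      ∑ y ∈ S.erase u, A u y * (Fs A (S.erase u) r Z + Fs A (S.erase u) r (insert y Z)) := by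
  unfold Fs
  rw [Fg_rec1 A hA r hr S u huS Z hZ, Fg_rec A hA r hr S 0 u huS Z hZ, add_zero, one_mul, add_assoc,
    ← Finset.sum_add_distrib]
  congr 1
  apply Finset.sum_congr rfl
  intro y _
  ring

/-- the recursion for one letter -/
theorem Fs_one (A : V → V → ZMod 2) (hA : ∀ x y, A x y = A y x) (r : V) (hr : ∀ x, A r x = 0)
    (S : Finset V) (hrS : r ∈ S) (u : V) (huS : u ∈ S) (hur : u ≠ r) :
    Fs A S r {u} = (S.card : ZMod 2) + ∑ y ∈ S.erase u, A u y * Fs A (S.erase u) r {y} := by
  have h := Fs_rec A hA r hr S u huS ∅ (by simp)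
  rw [insert_empty_eq] at h
  have hrS' : r ∈ S.erase u := Finset.mem_erase.mpr ⟨hur.symm, hrS⟩
  have e1 : Fg A (S.erase u) r 0 ∅ = (S.card : ZMod 2) := by
    rw [Fg_empty A r _ 0 hrS', card_er huS, add_comm, add_assoc, z2_add, add_zero]
  have e2 : Fs A (S.erase u) r ∅ = 0 := by
    unfold Fs
    rw [Fg_empty A r _ 0 hrS', Fg_empty A r _ 1 hrS', z2_add]
  rw [h, e1, e2]
  congr 1
  apply Finset.sum_congr rfl
  intro y _
  rw [zero_add, insert_empty_eq]

theorem F1_one (A : V → V → ZMod 2) (hA : ∀ x y, A x y = A y x) (r : V) (hr : ∀ x, A r x = 0)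
    (S : Finset V) (hrS : r ∈ S) (u : V) (huS : u ∈ S) (hur : u ≠ r) :
    Fg A S r 1 {u} = ∑ y ∈ S.erase u, A u y * ((S.card : ZMod 2) + Fg A (S.erase u) r 1 {y}) := by
  have h := Fg_rec1 A hA r hr S u huS ∅ (by simp)
  rw [insert_empty_eq] at h
  have hrS' : r ∈ S.erase u := Finset.mem_erase.mpr ⟨hur.symm, hrS⟩
  have e1 : Fg A (S.erase u) r 1 ∅ = (S.card : ZMod 2) := by
    rw [Fg_empty A r _ 1 hrS', card_er huS, add_comm, add_assoc, z2_add, add_zero]
  rw [h, e1]
  apply Finset.sum_congr rfl
  intro y _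
  rw [insert_empty_eq]

omit [Fintype V] in
theorem exch (S : Finset V) (r u : V) (f : V → V → ZMod 2) :
    (∑ v ∈ (S.erase r).erase u, ∑ y ∈ (S.erase v).erase u, f v y) =
    ∑ y ∈ S.erase u, ∑ v ∈ ((S.erase u).erase r).erase y, f v y := by
  apply Finset.sum_comm'
  intro v y
  simp only [Finset.mem_erase]
  constructor
  · rintro ⟨⟨h1, h2, h3⟩, h4, h5, h6⟩
    exact ⟨⟨fun h => h5 h.symm, h2, h1, h3⟩, h4, h6⟩
  · rintro ⟨⟨h1, h2, h3, h4⟩, h5, h6⟩
    exact ⟨⟨h3, h2, h4⟩, h5, fun h => h1 h.symm, h6⟩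

/-- LAW2, normalised form -/
theorem law2_norm (A : V → V → ZMod 2) (hA : ∀ x y, A x y = A y x) (r : V)
    (hr : ∀ x, A r x = 0) : ∀ (n : ℕ) (S : Finset V), S.card = n → r ∈ S → ∀ u ∈ S, u ≠ r →
    ∑ v ∈ (S.erase r).erase u, Fs A (S.erase v) r {u} = 0 := by
  intro n
  induction n with
  | zero =>
    intro S hS hrS
    rw [Finset.card_eq_zero] at hS
    rw [hS] at hrS
    exact absurd hrS (Finset.notMem_empty r)
  | succ n ih =>
    intro S hS hrS u huS hur
    have hmem : ∀ v ∈ (S.erase r).erase u, v ≠ u ∧ v ≠ r ∧ v ∈ S := by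
      intro v hv
      rw [Finset.mem_erase, Finset.mem_erase] at hv
      exact hv
    have e1 : ∀ v ∈ (S.erase r).erase u, Fs A (S.erase v) r {u} = ((S.card : ZMod 2) + 1) +
        ∑ y ∈ (S.erase v).erase u, A u y * Fs A ((S.erase v).erase u) r {y} := by
      intro v hv
      obtain ⟨h1, h2, h3⟩ := hmem v hv
      rw [Fs_one A hA r hr (S.erase v) (Finset.mem_erase.mpr ⟨h2.symm, hrS⟩) u
        (Finset.mem_erase.mpr ⟨h1.symm, huS⟩) hur, card_er h3]
    rw [Finset.sum_congr rfl e1, Finset.sum_add_distrib, exch, Finset.sum_const, nsmul_eq_mul,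
      card_er (Finset.mem_erase.mpr ⟨hur, huS⟩), card_er hrS]
    have e2 : ((S.card : ZMod 2) + 1 + 1) * ((S.card : ZMod 2) + 1) = 0 := by
      rw [add_assoc (S.card : ZMod 2) 1 1, z2_add, add_zero, z2_mul_add]
    rw [e2, zero_add]
    apply Finset.sum_eq_zero
    intro y hy
    by_cases hyr : y = r
    · apply Finset.sum_eq_zero
      intro v _
      rw [hyr, hA u r, hr u, zero_mul]
    · have hS' : (S.erase u).card = n := by
        rw [Finset.card_erase_of_mem huS, hS]; rfl
      have := ih (S.erase u) hS' (Finset.mem_erase.mpr ⟨hur.symm, hrS⟩) y hy hyr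
      rw [← Finset.mul_sum]
      have e3 : (∑ v ∈ ((S.erase u).erase r).erase y, Fs A ((S.erase v).erase u) r {y}) =
          ∑ v ∈ ((S.erase u).erase r).erase y, Fs A ((S.erase u).erase v) r {y} := by
        apply Finset.sum_congr rfl
        intro v _
        rw [Finset.erase_right_comm]
      rw [e3, this, mul_zero]

/-- the law for the constant 1 -/
theorem lawE_norm (A : V → V → ZMod 2) (hA : ∀ x y, A x y = A y x) (r : V)
    (hr : ∀ x, A r x = 0) : ∀ (n : ℕ) (S : Finset V), S.card = n → r ∈ S → ∀ u ∈ S, u ≠ r →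
    ∑ v ∈ (S.erase r).erase u, Fg A (S.erase v) r 1 {u} = Fs A S r {u} + (S.card : ZMod 2) := by
  intro n
  induction n with
  | zero =>
    intro S hS hrS
    rw [Finset.card_eq_zero] at hS
    rw [hS] at hrS
    exact absurd hrS (Finset.notMem_empty r)
  | succ n ih =>
    intro S hS hrS u huS hur
    have hmem : ∀ v ∈ (S.erase r).erase u, v ≠ u ∧ v ≠ r ∧ v ∈ S := by
      intro v hv
      rw [Finset.mem_erase, Finset.mem_erase] at hv
      exact hv
    have e1 : ∀ v ∈ (S.erase r).erase u, Fg A (S.erase v) r 1 {u} =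
        ∑ y ∈ (S.erase v).erase u,
          A u y * (((S.card : ZMod 2) + 1) + Fg A ((S.erase v).erase u) r 1 {y}) := by
      intro v hv
      obtain ⟨h1, h2, h3⟩ := hmem v hv
      rw [F1_one A hA r hr (S.erase v) (Finset.mem_erase.mpr ⟨h2.symm, hrS⟩) u
        (Finset.mem_erase.mpr ⟨h1.symm, huS⟩) hur, card_er h3]
    rw [Finset.sum_congr rfl e1, exch, Fs_one A hA r hr S hrS u huS hur]
    have e5 : ∀ s t : ZMod 2, s + t + s = t := by decide
    rw [e5]
    apply Finset.sum_congr rfl
    intro y hy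
    by_cases hyr : y = r
    · rw [hyr, hA u r, hr u, zero_mul]
      apply Finset.sum_eq_zero
      intro v _
      rw [zero_mul]
    · have hS' : (S.erase u).card = n := by
        rw [Finset.card_erase_of_mem huS, hS]; rfl
      have hrS' : r ∈ S.erase u := Finset.mem_erase.mpr ⟨hur.symm, hrS⟩
      have := ih (S.erase u) hS' hrS' y hy hyr
      rw [← Finset.mul_sum, Finset.sum_add_distrib]
      have e3 : (∑ v ∈ ((S.erase u).erase r).erase y, Fg A ((S.erase v).erase u) r 1 {y}) =
          ∑ v ∈ ((S.erase u).erase r).erase y, Fg A ((S.erase u).erase v) r 1 {y} := by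
        apply Finset.sum_congr rfl
        intro v _
        rw [Finset.erase_right_comm]
      rw [e3, this, Finset.sum_const, nsmul_eq_mul, card_er (Finset.mem_erase.mpr ⟨hyr, hy⟩),
        card_er hrS', card_er huS]
      congr 1
      have e4 : ∀ s t : ZMod 2, (s + 1 + 1 + 1) * (s + 1) + (t + (s + 1)) = t := by decide
      exact e4 _ _

/-- fine LAW3, normalised form -/
theorem law3_norm (A : V → V → ZMod 2) (hA : ∀ x y, A x y = A y x) (r : V)
    (hr : ∀ x, A r x = 0) : ∀ (n : ℕ) (S : Finset V), S.card = n → r ∈ S → ∀ u ∈ S, u ≠ r →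
    ∀ w ∈ S, w ≠ r → u ≠ w →
    (∑ v ∈ ((S.erase r).erase u).erase w, Fs A (S.erase v) r {u, w}) =
      Fs A (S.erase w) r {u} + Fs A (S.erase u) r {w} := by
  intro n
  induction n with
  | zero =>
    intro S hS hrS
    rw [Finset.card_eq_zero] at hS
    rw [hS] at hrS
    exact absurd hrS (Finset.notMem_empty r)
  | succ n ih =>
    intro S hS hrS u huS hur w hwS hwr huw
    have hmem : ∀ v ∈ ((S.erase r).erase u).erase w, v ≠ w ∧ v ≠ u ∧ v ≠ r ∧ v ∈ S := by
      intro v hv
      rw [Finset.mem_erase, Finset.mem_erase, Finset.mem_erase] at hv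
      exact hv
    have hrS' : r ∈ S.erase u := Finset.mem_erase.mpr ⟨hur.symm, hrS⟩
    have hwS' : w ∈ S.erase u := Finset.mem_erase.mpr ⟨huw.symm, hwS⟩
    have hS' : (S.erase u).card = n := by
      rw [Finset.card_erase_of_mem huS, hS]; rfl
    have hset : ((S.erase r).erase u).erase w = ((S.erase u).erase r).erase w := by
      rw [Finset.erase_right_comm (a := r)]
    -- the recursion
    have e1 : ∀ v ∈ ((S.erase r).erase u).erase w, Fs A (S.erase v) r {u, w} =
        (Fs A ((S.erase u).erase v) r {w} + Fg A ((S.erase u).erase v) r 1 {w}) +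
        ∑ y ∈ (S.erase v).erase u, A u y * (Fs A ((S.erase u).erase v) r {w} +
          Fs A ((S.erase u).erase v) r (insert y {w})) := by
      intro v hv
      obtain ⟨h1, h2, h3, h4⟩ := hmem v hv
      have := Fs_rec A hA r hr (S.erase v) u (Finset.mem_erase.mpr ⟨h2.symm, huS⟩) {w} (by
        intro z hz
        rw [Finset.mem_singleton] at hz
        rw [hz]
        exact ⟨Finset.mem_erase.mpr ⟨h1.symm, hwS⟩, huw.symm⟩)
      rw [this]
      have e0 : Fg A ((S.erase v).erase u) r 0 {w} =
          Fs A ((S.erase u).erase v) r {w} + Fg A ((S.erase u).erase v) r 1 {w} := by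
        unfold Fs
        rw [add_assoc, z2_add, add_zero, Finset.erase_right_comm]
      rw [e0]
      congr 1
      apply Finset.sum_congr rfl
      intro y _
      rw [Finset.erase_right_comm]
    rw [Finset.sum_congr rfl e1, Finset.sum_add_distrib, Finset.sum_add_distrib]
    -- first part
    have p1 : (∑ v ∈ ((S.erase r).erase u).erase w, Fs A ((S.erase u).erase v) r {w}) = 0 := by
      rw [hset]
      exact law2_norm A hA r hr n (S.erase u) hS' hrS' w hwS' hwr
    have p2 : (∑ v ∈ ((S.erase r).erase u).erase w, Fg A ((S.erase u).erase v) r 1 {w}) =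
        Fs A (S.erase u) r {w} + ((S.card : ZMod 2) + 1) := by
      rw [hset, lawE_norm A hA r hr n (S.erase u) hS' hrS' w hwS' hwr, card_er huS]
    -- the exchange of sums
    have p3 : (∑ v ∈ ((S.erase r).erase u).erase w, ∑ y ∈ (S.erase v).erase u,
        A u y * (Fs A ((S.erase u).erase v) r {w} + Fs A ((S.erase u).erase v) r (insert y {w}))) =
        ∑ y ∈ S.erase u, ∑ v ∈ (((S.erase u).erase r).erase w).erase y,
        A u y * (Fs A ((S.erase u).erase v) r {w} +
          Fs A ((S.erase u).erase v) r (insert y {w})) := by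
      apply Finset.sum_comm'
      intro v y
      simp only [Finset.mem_erase]
      constructor
      · rintro ⟨⟨h0, h1, h2, h3⟩, h4, h5, h6⟩
        exact ⟨⟨fun h => h5 h.symm, h0, h2, h1, h3⟩, h4, h6⟩
      · rintro ⟨⟨h1, h0, h2, h3, h4⟩, h5, h6⟩
        exact ⟨⟨h0, h3, h2, h4⟩, h5, fun h => h1 h.symm, h6⟩
    have p4 : ∀ y ∈ S.erase u, (∑ v ∈ (((S.erase u).erase r).erase w).erase y,
        A u y * (Fs A ((S.erase u).erase v) r {w} +
          Fs A ((S.erase u).erase v) r (insert y {w}))) =
        if y = w then 0 else A u y * Fs A ((S.erase w).erase u) r {y} := by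
      intro y hy
      by_cases hyw : y = w
      · rw [if_pos hyw]
        apply Finset.sum_eq_zero
        intro v _
        rw [hyw, Finset.insert_eq_of_mem (Finset.mem_singleton_self w), z2_add, mul_zero]
      · rw [if_neg hyw]
        by_cases hyr : y = r
        · rw [hyr, hA u r, hr u, zero_mul]
          apply Finset.sum_eq_zero
          intro v _
          rw [zero_mul]
        · rw [← Finset.mul_sum, Finset.sum_add_distrib]
          have q1 : (∑ v ∈ (((S.erase u).erase r).erase w).erase y,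
              Fs A ((S.erase u).erase v) r {w}) = Fs A ((S.erase u).erase y) r {w} := by
            have hyT : y ∈ ((S.erase u).erase r).erase w :=
              Finset.mem_erase.mpr ⟨hyw, Finset.mem_erase.mpr ⟨hyr, hy⟩⟩
            have h := Finset.add_sum_erase (((S.erase u).erase r).erase w)
              (fun v => Fs A ((S.erase u).erase v) r {w}) hyT
            have h' := law2_norm A hA r hr n (S.erase u) hS' hrS' w hwS' hwr
            rw [h'] at h
            exact (z2_eq_of_add h).symm
          have q2 : (∑ v ∈ (((S.erase u).erase r).erase w).erase y,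
              Fs A ((S.erase u).erase v) r (insert y {w})) =
              Fs A ((S.erase u).erase w) r {y} + Fs A ((S.erase u).erase y) r {w} := by
            have := ih (S.erase u) hS' hrS' y hy hyr w hwS' hwr hyw
            rw [Finset.erase_right_comm (a := y)] at this
            exact this
          rw [q1, q2]
          congr 1
          have e6 : ∀ s t : ZMod 2, s + (t + s) = t := by decide
          rw [e6, Finset.erase_right_comm]
    have p5 : (∑ y ∈ S.erase u, if y = w then (0 : ZMod 2) else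
        A u y * Fs A ((S.erase w).erase u) r {y}) =
        Fs A (S.erase w) r {u} + ((S.card : ZMod 2) + 1) := by
      have h := Fs_one A hA r hr (S.erase w) (Finset.mem_erase.mpr ⟨hwr.symm, hrS⟩) u
        (Finset.mem_erase.mpr ⟨huw, huS⟩) hur
      rw [card_er hwS] at h
      have e7 : ∀ s t : ZMod 2, s + t + s = t := by decide
      rw [h, e7, Finset.erase_right_comm (a := w)]
      rw [← Finset.add_sum_erase (S.erase u) _ hwS', if_pos rfl, zero_add]
      apply Finset.sum_congr rfl
      intro y hy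
      rw [if_neg (Finset.mem_erase.mp hy).1]
    rw [p1, p2, p3, Finset.sum_congr rfl p4, p5]
    have e8 : ∀ s t k : ZMod 2, 0 + (s + k) + (t + k) = t + s := by decide
    exact e8 _ _ _

end Pool.LAW
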