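import Pool.Agent.LAW.Laws

/-!
# The laws for an arbitrary symmetric matrix

`F A S r Z` : number modulo 2 of the quadruples `(c1, c2, a, b)` that are structures on `S` with
`f r = (1, 0)` and `f = (0, 1)` on `Z`.
`Str A S f c` : the same notion for `f : V → ZMod 2 × ZMod 2`.
-/

namespace Pool.LAW

open Finset

variable {V : Type*} [Fintype V] [DecidableEq V]

/-- number modulo 2 of the structures on `S` with value `(1, 0)` at `r` and `(0, 1)` on `Z` -/
def F (A : V → V → ZMod 2) (S : Finset V) (r : V) (Z : Finset V) : ZMod 2 :=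
  ∑ c1 : ZMod 2, ∑ c2 : ZMod 2, ∑ a : V → ZMod 2, ∑ b : V → ZMod 2,
    if St A S c1 c2 a b ∧ a r = 1 ∧ b r = 0 ∧ (∀ z ∈ Z, a z = 0 ∧ b z = 1) then 1 else 0

/-- switching: the normalised matrix -/
def nrm (A : V → V → ZMod 2) (r : V) : V → V → ZMod 2 :=
  fun x y => A x y + A x r + A r y + A r r

omit [Fintype V] [DecidableEq V] in
theorem nrm_symm (A : V → V → ZMod 2) (hA : ∀ x y, A x y = A y x) (r : V) (x y : V) :
    nrm A r x y = nrm A r y x := by
  unfold nrm
  rw [hA x y, hA x r, hA r y]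
  ring

omit [Fintype V] [DecidableEq V] in
theorem nrm_root (A : V → V → ZMod 2) (r : V) (y : V) : nrm A r r y = 0 := by
  unfold nrm
  have : ∀ s t : ZMod 2, s + t + s + t = 0 := by decide
  exact this _ _

omit [DecidableEq V] in
theorem nrm_mul (A : V → V → ZMod 2) (r : V) (a : V → ZMod 2) (ha : ∑ x, a x = 0) (x : V) :
    (∑ y, nrm A r x y * a y) = (∑ y, A x y * a y) + ∑ y, A r y * a y := by
  unfold nrm
  have : (∑ y, (A x y + A x r + A r y + A r r) * a y) =
      (∑ y, A x y * a y) + (∑ y, A r y * a y) + (A x r + A r r) * ∑ y, a y := by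
    rw [Finset.mul_sum, ← Finset.sum_add_distrib, ← Finset.sum_add_distrib]
    apply Finset.sum_congr rfl
    intro y _
    ring
  rw [this, ha, mul_zero, add_zero]

omit [DecidableEq V] in
theorem St_nrm (A : V → V → ZMod 2) (S : Finset V) (r : V) (c1 c2 : ZMod 2) (a b : V → ZMod 2) :
    St A S c1 c2 a b ↔
    St (nrm A r) S (c1 + ∑ y, A r y * a y) (c2 + ∑ y, A r y * b y) a b := by
  unfold St
  constructor
  · rintro ⟨h1, h2, h3, h4⟩
    refine ⟨h1, h2, h3, ?_⟩
    intro x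
    rw [nrm_mul A r a h2, nrm_mul A r b h3]
    have e : ∀ c s t : ZMod 2, c + s + (t + s) = c + t := by decide
    rw [e, e]
    exact h4 x
  · rintro ⟨h1, h2, h3, h4⟩
    refine ⟨h1, h2, h3, ?_⟩
    intro x
    have := h4 x
    rw [nrm_mul A r a h2, nrm_mul A r b h3] at this
    have e : ∀ c s t : ZMod 2, c + s + (t + s) = c + t := by decide
    rw [e, e] at this
    exact this

theorem F_eq (A : V → V → ZMod 2) (S : Finset V) (r : V) (Z : Finset V) :
    F A S r Z = Fs (nrm A r) S r Z := by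
  have h1 : F A S r Z = ∑ a : V → ZMod 2, ∑ b : V → ZMod 2, ∑ c1 : ZMod 2, ∑ c2 : ZMod 2,
      if St A S c1 c2 a b ∧ a r = 1 ∧ b r = 0 ∧ (∀ z ∈ Z, a z = 0 ∧ b z = 1) then 1 else 0 := by
    unfold F
    calc (∑ c1 : ZMod 2, ∑ c2 : ZMod 2, ∑ a : V → ZMod 2, ∑ b : V → ZMod 2,
          if St A S c1 c2 a b ∧ a r = 1 ∧ b r = 0 ∧ (∀ z ∈ Z, a z = 0 ∧ b z = 1)
            then (1 : ZMod 2) else 0)
        = ∑ c1 : ZMod 2, ∑ a : V → ZMod 2, ∑ c2 : ZMod 2, ∑ b : V → ZMod 2,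
          (if St A S c1 c2 a b ∧ a r = 1 ∧ b r = 0 ∧ (∀ z ∈ Z, a z = 0 ∧ b z = 1)
            then (1 : ZMod 2) else 0) :=
          Finset.sum_congr rfl (fun c1 _ => Finset.sum_comm)
      _ = ∑ a : V → ZMod 2, ∑ c1 : ZMod 2, ∑ c2 : ZMod 2, ∑ b : V → ZMod 2,
          (if St A S c1 c2 a b ∧ a r = 1 ∧ b r = 0 ∧ (∀ z ∈ Z, a z = 0 ∧ b z = 1)
            then (1 : ZMod 2) else 0) := Finset.sum_comm
      _ = ∑ a : V → ZMod 2, ∑ c1 : ZMod 2, ∑ b : V → ZMod 2, ∑ c2 : ZMod 2,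
          (if St A S c1 c2 a b ∧ a r = 1 ∧ b r = 0 ∧ (∀ z ∈ Z, a z = 0 ∧ b z = 1)
            then (1 : ZMod 2) else 0) :=
          Finset.sum_congr rfl (fun a _ => Finset.sum_congr rfl (fun c1 _ => Finset.sum_comm))
      _ = _ := Finset.sum_congr rfl (fun a _ => Finset.sum_comm)
  have h2 : Fs (nrm A r) S r Z = ∑ a : V → ZMod 2, ∑ b : V → ZMod 2, ∑ c1 : ZMod 2,
      if St (nrm A r) S c1 0 a b ∧ a r = 1 ∧ b r = 0 ∧ (∀ z ∈ Z, a z = 0 ∧ b z = 1)
        then 1 else 0 := by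
    unfold Fs Fg
    rw [← Finset.sum_add_distrib]
    apply Finset.sum_congr rfl
    intro a _
    rw [← Finset.sum_add_distrib]
    apply Finset.sum_congr rfl
    intro b _
    exact (Fin.sum_univ_two (fun c1 : Fin 2 => if St (nrm A r) S (c1 : ZMod 2) 0 a b ∧ a r = 1 ∧
      b r = 0 ∧ (∀ z ∈ Z, a z = 0 ∧ b z = 1) then (1 : ZMod 2) else 0)).symm
  rw [h1, h2]
  apply Finset.sum_congr rfl
  intro a _
  apply Finset.sum_congr rfl
  intro b _
  -- substitution of the constants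
  have h3 : (∑ c1 : ZMod 2, ∑ c2 : ZMod 2,
      if St A S c1 c2 a b ∧ a r = 1 ∧ b r = 0 ∧ (∀ z ∈ Z, a z = 0 ∧ b z = 1)
        then (1 : ZMod 2) else 0) =
      ∑ c1 : ZMod 2, ∑ c2 : ZMod 2,
      if St (nrm A r) S c1 c2 a b ∧ a r = 1 ∧ b r = 0 ∧ (∀ z ∈ Z, a z = 0 ∧ b z = 1)
        then (1 : ZMod 2) else 0 := by
    rw [← Equiv.sum_comp (Equiv.addRight (∑ y, A r y * a y))
      (fun c1 => ∑ c2 : ZMod 2,
        if St (nrm A r) S c1 c2 a b ∧ a r = 1 ∧ b r = 0 ∧ (∀ z ∈ Z, a z = 0 ∧ b z = 1)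
        then (1 : ZMod 2) else 0)]
    apply Finset.sum_congr rfl
    intro c1 _
    rw [← Equiv.sum_comp (Equiv.addRight (∑ y, A r y * b y))
      (fun c2 => if St (nrm A r) S ((Equiv.addRight (∑ y, A r y * a y)) c1) c2 a b ∧ a r = 1 ∧
        b r = 0 ∧ (∀ z ∈ Z, a z = 0 ∧ b z = 1) then (1 : ZMod 2) else 0)]
    apply Finset.sum_congr rfl
    intro c2 _
    apply if_congr _ rfl rfl
    rw [St_nrm A S r c1 c2 a b]
    rfl
  rw [h3]
  apply Finset.sum_congr rfl
  intro c1 _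
  rw [Finset.sum_eq_single (0 : ZMod 2)]
  · intro c2 _ hc2
    rw [if_neg]
    rintro ⟨h4, h5, h6, _⟩
    have := h4.2.2.2 r
    have e2 : (∑ y, nrm A r r y * b y) = 0 :=
      Finset.sum_eq_zero (fun y _ => by rw [nrm_root, zero_mul])
    rw [h5, h6, e2, zero_mul, one_mul, add_zero] at this
    exact hc2 this.symm
  · intro h
    exact absurd (Finset.mem_univ _) h

omit [DecidableEq V] in
theorem St_swap (A : V → V → ZMod 2) (S : Finset V) (c1 c2 : ZMod 2) (a b : V → ZMod 2) :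
    St A S c1 c2 a b ↔ St A S c2 c1 b a := by
  unfold St
  constructor
  · rintro ⟨h1, h2, h3, h4⟩
    exact ⟨fun x => (h1 x).trans (not_congr and_comm), h3, h2, fun x => (h4 x).symm⟩
  · rintro ⟨h1, h2, h3, h4⟩
    exact ⟨fun x => (h1 x).trans (not_congr and_comm), h3, h2, fun x => (h4 x).symm⟩

/-- symmetry in the two letters -/
theorem F_symm (A : V → V → ZMod 2) (S : Finset V) (r u : V) : F A S r {u} = F A S u {r} := by
  unfold F
  rw [Finset.sum_comm]
  apply Finset.sum_congr rfl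
  intro c1 _
  apply Finset.sum_congr rfl
  intro c2 _
  rw [Finset.sum_comm]
  apply Finset.sum_congr rfl
  intro a _
  apply Finset.sum_congr rfl
  intro b _
  apply if_congr _ rfl rfl
  rw [St_swap A S c2 c1 b a]
  simp only [Finset.mem_singleton, forall_eq]
  constructor
  · rintro ⟨h1, h2, h3, h4, h5⟩
    exact ⟨h1, h5, h4, h3, h2⟩
  · rintro ⟨h1, h2, h3, h4, h5⟩
    exact ⟨h1, h5, h4, h3, h2⟩

/-- LAW2 -/
theorem law2 (A : V → V → ZMod 2) (hA : ∀ x y, A x y = A y x) (S : Finset V) (r u : V)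
    (hrS : r ∈ S) (huS : u ∈ S) (hur : u ≠ r) :
    ∑ v ∈ (S.erase r).erase u, F A (S.erase v) r {u} = 0 := by
  rw [Finset.sum_congr rfl (fun v _ => F_eq A (S.erase v) r {u})]
  exact law2_norm (nrm A r) (nrm_symm A hA r) r (nrm_root A r) S.card S rfl hrS u huS hur

/-- the fine form of LAW3 -/
theorem law3f (A : V → V → ZMod 2) (hA : ∀ x y, A x y = A y x) (S : Finset V) (r u w : V)
    (hrS : r ∈ S) (huS : u ∈ S) (hwS : w ∈ S) (hur : u ≠ r) (hwr : w ≠ r) (huw : u ≠ w) :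
    (∑ v ∈ ((S.erase r).erase u).erase w, F A (S.erase v) r {u, w}) =
      F A (S.erase w) r {u} + F A (S.erase u) r {w} := by
  rw [Finset.sum_congr rfl (fun v _ => F_eq A (S.erase v) r {u, w}), F_eq, F_eq]
  exact law3_norm (nrm A r) (nrm_symm A hA r) r (nrm_root A r) S.card S rfl hrS u huS hur w hwS
    hwr huw

/-- LAW3 -/
theorem law3 (A : V → V → ZMod 2) (hA : ∀ x y, A x y = A y x) (S : Finset V) (r u w : V)
    (hrS : r ∈ S) (huS : u ∈ S) (hwS : w ∈ S) (hur : u ≠ r) (hwr : w ≠ r) (huw : u ≠ w) :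
    ∑ v ∈ ((S.erase r).erase u).erase w,
      (F A (S.erase v) r {u, w} + F A (S.erase v) u {r, w} + F A (S.erase v) w {r, u}) = 0 := by
  have s1 : ((S.erase r).erase u).erase w = ((S.erase u).erase r).erase w := by
    rw [Finset.erase_right_comm (a := r)]
  have s2 : ((S.erase r).erase u).erase w = ((S.erase w).erase r).erase u := by
    rw [Finset.erase_right_comm (a := u), Finset.erase_right_comm (a := r) (b := w)]
  rw [Finset.sum_add_distrib, Finset.sum_add_distrib,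
    law3f A hA S r u w hrS huS hwS hur hwr huw]
  have h2 : (∑ v ∈ ((S.erase r).erase u).erase w, F A (S.erase v) u {r, w}) =
      F A (S.erase w) u {r} + F A (S.erase r) u {w} := by
    rw [s1]
    exact law3f A hA S u r w huS hrS hwS hur.symm huw.symm hwr.symm
  have h3 : (∑ v ∈ ((S.erase r).erase u).erase w, F A (S.erase v) w {r, u}) =
      F A (S.erase u) w {r} + F A (S.erase r) w {u} := by
    rw [s2]
    exact law3f A hA S w r u hwS hrS huS hwr.symm huw hur.symm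
  rw [h2, h3, F_symm A (S.erase w) u r, F_symm A (S.erase u) w r, F_symm A (S.erase r) w u]
  have : ∀ x y z : ZMod 2, x + y + (x + z) + (y + z) = 0 := by decide
  exact this _ _ _

/-! ### the form with `f : V → ZMod 2 × ZMod 2` -/

/-- `(f, c)` is a structure on `S` -/
def Str (A : V → V → ZMod 2) (S : Finset V) (f : V → ZMod 2 × ZMod 2) (c : ZMod 2 × ZMod 2) :
    Prop :=
  (∀ x, x ∈ S ↔ f x ≠ 0) ∧ ∑ x, f x = 0 ∧
  ∀ x ∈ S, c + ∑ y, A x y • f y = 0 ∨ c + ∑ y, A x y • f y = f x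

instance (A : V → V → ZMod 2) (S : Finset V) (f : V → ZMod 2 × ZMod 2) (c : ZMod 2 × ZMod 2) :
    Decidable (Str A S f c) := by
  unfold Str
  infer_instance

theorem prop_iff (p q a b : ZMod 2) (h : (a, b) ≠ ((0 : ZMod 2), (0 : ZMod 2))) :
    b * p = a * q ↔ ((p, q) = ((0 : ZMod 2), (0 : ZMod 2)) ∨ (p, q) = (a, b)) := by
  revert p q a b
  decide

theorem St_iff_Str (A : V → V → ZMod 2) (S : Finset V) (c1 c2 : ZMod 2) (a b : V → ZMod 2) :
    St A S c1 c2 a b ↔ Str A S (fun x => (a x, b x)) (c1, c2) := by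
  have hsum : (∑ x, ((a x, b x) : ZMod 2 × ZMod 2)) = (∑ x, a x, ∑ x, b x) := by
    ext
    · rw [Prod.fst_sum]
    · rw [Prod.snd_sum]
  have hA : ∀ x, ((c1, c2) : ZMod 2 × ZMod 2) + ∑ y, A x y • ((a y, b y) : ZMod 2 × ZMod 2) =
      (c1 + ∑ y, A x y * a y, c2 + ∑ y, A x y * b y) := by
    intro x
    ext
    · rw [Prod.fst_add, Prod.fst_sum]
      rfl
    · rw [Prod.snd_add, Prod.snd_sum]
      rfl
  unfold St Str
  constructor
  · rintro ⟨h1, h2, h3, h4⟩
    refine ⟨?_, ?_, ?_⟩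
    · intro x
      rw [h1 x, ne_eq, Prod.mk_eq_zero]
    · rw [hsum, h2, h3]
      rfl
    · intro x hx
      have hne : (a x, b x) ≠ ((0 : ZMod 2), (0 : ZMod 2)) := by
        intro h
        exact (h1 x).mp hx (Prod.mk_eq_zero.mp h)
      have := (prop_iff _ _ _ _ hne).mp (h4 x)
      simp only [hA]
      exact this
  · rintro ⟨h1, h2, h3⟩
    rw [hsum, Prod.mk_eq_zero] at h2
    refine ⟨?_, h2.1, h2.2, ?_⟩
    · intro x
      rw [h1 x, ne_eq, Prod.mk_eq_zero]
    · intro x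
      by_cases hx : x ∈ S
      · have hne : (a x, b x) ≠ ((0 : ZMod 2), (0 : ZMod 2)) := (h1 x).mp hx
        have := h3 x hx
        simp only [hA] at this
        exact (prop_iff _ _ _ _ hne).mpr this
      · have : (a x, b x) = (0 : ZMod 2 × ZMod 2) := by
          by_contra h
          exact hx ((h1 x).mpr h)
        rw [Prod.mk_eq_zero] at this
        rw [this.1, this.2, zero_mul, zero_mul]

/-- the structures counted by `F` -/
def FF (A : V → V → ZMod 2) (S : Finset V) (r : V) (Z : Finset V) :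
    Finset ((V → ZMod 2 × ZMod 2) × (ZMod 2 × ZMod 2)) :=
  univ.filter (fun p => Str A S p.1 p.2 ∧ p.1 r = (1, 0) ∧ ∀ z ∈ Z, p.1 z = (0, 1))

theorem card_FF (A : V → V → ZMod 2) (S : Finset V) (r : V) (Z : Finset V) :
    ((FF A S r Z).card : ZMod 2) = F A S r Z := by
  have h1 : ((FF A S r Z).card : ZMod 2) =
      ∑ p : (V → ZMod 2 × ZMod 2) × (ZMod 2 × ZMod 2),
      if Str A S p.1 p.2 ∧ p.1 r = (1, 0) ∧ (∀ z ∈ Z, p.1 z = (0, 1)) then (1 : ZMod 2) else 0 := by
    unfold FF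
    rw [Finset.card_filter, Nat.cast_sum]
    apply Finset.sum_congr rfl
    intro p _
    push_cast
    rfl
  rw [h1]
  -- the bijection with quadruples
  let e : (ZMod 2 × ZMod 2) × ((V → ZMod 2) × (V → ZMod 2)) ≃
      (V → ZMod 2 × ZMod 2) × (ZMod 2 × ZMod 2) :=
    { toFun := fun q => (fun x => (q.2.1 x, q.2.2 x), q.1)
      invFun := fun p => (p.2, (fun x => (p.1 x).1, fun x => (p.1 x).2))
      left_inv := fun q => rfl
      right_inv := fun p => rfl }
  rw [← Equiv.sum_comp e]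
  unfold F
  rw [Fintype.sum_prod_type, Fintype.sum_prod_type]
  apply Finset.sum_congr rfl
  intro c1 _
  apply Finset.sum_congr rfl
  intro c2 _
  rw [Fintype.sum_prod_type]
  apply Finset.sum_congr rfl
  intro a _
  apply Finset.sum_congr rfl
  intro b _
  apply if_congr _ rfl rfl
  change (Str A S (fun x => (a x, b x)) (c1, c2) ∧ (a r, b r) = (1, 0) ∧
    ∀ z ∈ Z, (a z, b z) = (0, 1)) ↔ _
  rw [← St_iff_Str]
  simp only [Prod.mk.injEq, and_assoc]

end Pool.LAW
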