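import Pool.Agent.LAW.HypH

/-!
# Theorem A
-/

namespace Pool.LAW

open Finset

variable {V : Type*} [Fintype V] [DecidableEq V]

/-- indicator of the class `K v` -/
def ind (K : V → Finset V) (v x : V) : ZMod 2 := if x ∈ K v then 1 else 0

omit [Fintype V] in
theorem ind_eq {K : V → Finset V} {v x y : V} (h : ind K v x = ind K v y) :
    (x ∈ K v ↔ y ∈ K v) := by
  unfold ind at h
  by_cases h1 : x ∈ K v
  · by_cases h2 : y ∈ K v
    · exact ⟨fun _ => h2, fun _ => h1⟩
    · rw [if_pos h1, if_neg h2] at h
      exact absurd h one_ne_zero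
  · by_cases h2 : y ∈ K v
    · rw [if_neg h1, if_pos h2] at h
      exact absurd h zero_ne_one
    · exact ⟨fun h => absurd h h1, fun h => absurd h h2⟩

/-- structures are constant on the classes -/
theorem const_class {A : V → V → ZMod 2} {K : V → Finset V} (H : HypH A K) {v : V}
    {F : V → ZMod 2 × ZMod 2} {c : ZMod 2 × ZMod 2} (h : Str A (univ.erase v) F c) {x y : V}
    (hx : x ≠ v) (hy : y ≠ v) (hxy : ind K v x = ind K v y) : F x = F y := by
  have hc := H.const v F c h
  have := ind_eq hxy
  by_cases h1 : x ∈ K v
  · exact hc.1 x h1 y (this.mp h1)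
  · exact hc.2 x hx h1 y hy (fun h2 => h1 (this.mpr h2))

/-- the values of `F`, zero case -/
theorem F_zero {A : V → V → ZMod 2} {K : V → Finset V} (H : HypH A K) {v r z : V}
    (hr : r ≠ v) (hz : z ≠ v) (hrz : ind K v z = ind K v r) (Z : Finset V) (hzZ : z ∈ Z) :
    F A (univ.erase v) r Z = 0 := by
  rw [← card_FF]
  have : FF A (univ.erase v) r Z = ∅ := by
    rw [Finset.eq_empty_iff_forall_notMem]
    intro p hp
    unfold FF at hp
    rw [Finset.mem_filter] at hp
    obtain ⟨_, h1, h2, h3⟩ := hp
    have h4 := const_class H h1 hz hr hrz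
    rw [h2, h3 z hzZ] at h4
    exact absurd h4 (by decide)
  rw [this, Finset.card_empty, Nat.cast_zero]

/-- the values of `F`, case one -/
theorem F_onev {A : V → V → ZMod 2} {K : V → Finset V} (H : HypH A K) {v r : V}
    (hr : r ≠ v) (Z : Finset V) (hne : Z.Nonempty) (hvZ : v ∉ Z)
    (hZ : ∀ z ∈ Z, ind K v z ≠ ind K v r) :
    F A (univ.erase v) r Z = 1 := by
  rw [← card_FF]
  obtain ⟨z0, hz0⟩ := hne
  have hz0v : z0 ≠ v := fun h => hvZ (h ▸ hz0)
  -- the two colours
  obtain ⟨s, t, hs, ht, hst, hrs, hzs⟩ : ∃ s t : ZMod 2 × ZMod 2, s ≠ 0 ∧ t ≠ 0 ∧ s ≠ t ∧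
      (if r ∈ K v then s else t) = (1, 0) ∧ (∀ z ∈ Z, (if z ∈ K v then s else t) = (0, 1)) := by
    by_cases h : r ∈ K v
    · refine ⟨(1, 0), (0, 1), by decide, by decide, by decide, by rw [if_pos h], ?_⟩
      intro z hz
      rw [if_neg]
      intro hzK
      apply hZ z hz
      unfold ind
      rw [if_pos h, if_pos hzK]
    · refine ⟨(0, 1), (1, 0), by decide, by decide, by decide, by rw [if_neg h], ?_⟩
      intro z hz
      rw [if_pos]
      by_contra hzK
      apply hZ z hz
      unfold ind
      rw [if_neg h, if_neg hzK]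
  obtain ⟨c, hc, huniq⟩ := H.exun v s t hs ht hst
  have : FF A (univ.erase v) r Z =
      {((fun x => if x = v then 0 else if x ∈ K v then s else t), c)} := by
    ext p
    rw [Finset.mem_singleton]
    unfold FF
    rw [Finset.mem_filter]
    constructor
    · rintro ⟨_, h1, h2, h3⟩
      have hf : p.1 = fun x => if x = v then 0 else if x ∈ K v then s else t := by
        funext x
        by_cases hx : x = v
        · rw [if_pos hx, hx]
          by_contra hne
          exact (Finset.mem_erase.mp ((h1.1 v).mpr hne)).1 rfl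
        · rw [if_neg hx]
          by_cases hxr : ind K v x = ind K v r
          · rw [const_class H h1 hx hr hxr, h2, ← hrs]
            exact if_congr (ind_eq hxr).symm rfl rfl
          · have hxz : ind K v x = ind K v z0 := by
              have h5 := hZ z0 hz0
              revert hxr h5
              generalize ind K v x = i
              generalize ind K v r = j
              generalize ind K v z0 = k
              revert i j k
              decide
            rw [const_class H h1 hx hz0v hxz, h3 z0 hz0, ← hzs z0 hz0]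
            exact if_congr (ind_eq hxz).symm rfl rfl
      have hcc : p.2 = c := by
        apply huniq
        rw [← hf]
        exact h1
      exact Prod.ext hf hcc
    · intro hp
      rw [hp]
      refine ⟨Finset.mem_univ _, hc, ?_, ?_⟩
      · change (if r = v then 0 else if r ∈ K v then s else t) = (1, 0)
        rw [if_neg hr, hrs]
      · intro z hz
        change (if z = v then 0 else if z ∈ K v then s else t) = (0, 1)
        have hzv : z ≠ v := by
          intro h
          rw [h] at hz
          exact hvZ hz
        rw [if_neg hzv, hzs z hz]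
  rw [this, Finset.card_singleton, Nat.cast_one]

theorem F_val1 {A : V → V → ZMod 2} {K : V → Finset V} (H : HypH A K) {v r u : V}
    (hr : r ≠ v) (hu : u ≠ v) :
    F A (univ.erase v) r {u} = ind K v r + ind K v u := by
  by_cases h : ind K v u = ind K v r
  · rw [F_zero H hr hu h {u} (Finset.mem_singleton_self u), h, z2_add]
  · rw [F_onev H hr {u} (Finset.singleton_nonempty u)
      (fun hv => hu (Finset.mem_singleton.mp hv).symm)
      (fun z hz => by rw [Finset.mem_singleton.mp hz]; exact h)]
    revert h
    generalize ind K v r = i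
    generalize ind K v u = j
    revert i j
    decide

theorem F_val2 {A : V → V → ZMod 2} {K : V → Finset V} (H : HypH A K) {v r u w : V}
    (hr : r ≠ v) (hu : u ≠ v) (hw : w ≠ v) :
    F A (univ.erase v) r {u, w} =
      (ind K v r + ind K v u) * (ind K v r + ind K v w) := by
  by_cases h : ind K v u = ind K v r
  · rw [F_zero H hr hu h {u, w} (Finset.mem_insert_self u _), h, z2_add, zero_mul]
  · by_cases h' : ind K v w = ind K v r
    · rw [F_zero H hr hw h' {u, w} (Finset.mem_insert_of_mem (Finset.mem_singleton_self w)), h',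
        z2_add, mul_zero]
    · rw [F_onev H hr {u, w} ⟨u, Finset.mem_insert_self u _⟩ ?_ ?_]
      · revert h h'
        generalize ind K v r = i
        generalize ind K v u = j
        generalize ind K v w = k
        revert i j k
        decide
      · intro hv
        rcases Finset.mem_insert.mp hv with h1 | h1
        · exact hu h1.symm
        · exact hw (Finset.mem_singleton.mp h1).symm
      · intro z hz
        rcases Finset.mem_insert.mp hz with h1 | h1
        · rw [h1]; exact h
        · rw [Finset.mem_singleton.mp h1]; exact h'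

/-- the matrix of the classes of the root -/
def Mat (K : V → Finset V) (r : V) : Matrix V V (ZMod 2) := fun v u =>
  if v = r ∨ u = r then (if v = u then 1 else 0) else
    if v = u then 0 else 1 + ind K v r + ind K v u

theorem Mat_mul {A : V → V → ZMod 2} (hA : ∀ x y, A x y = A y x) {K : V → Finset V}
    (H : HypH A K) (hodd : Odd (Fintype.card V)) (r : V) :
    (Mat K r).transpose * Mat K r = 1 := by
  have hn : ((univ : Finset V).card : ZMod 2) = 1 := by
    rw [Finset.card_univ]
    exact (ZMod.natCast_eq_one_iff_odd).mpr hodd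
  ext u w
  rw [Matrix.mul_apply]
  simp only [Matrix.transpose_apply]
  by_cases hu : u = r
  · rw [hu, Finset.sum_eq_single r]
    · unfold Mat
      simp only [true_or, if_true, one_mul]
      rw [Matrix.one_apply]
    · intro v _ hv
      unfold Mat
      simp only [or_true, if_true, if_neg hv, zero_mul]
    · intro h; exact absurd (mem_univ _) h
  · by_cases hw : w = r
    · rw [hw, Finset.sum_eq_single r]
      · unfold Mat
        simp only [true_or, if_true, mul_one]
        rw [Matrix.one_apply, if_neg hu, if_neg (fun h => hu h.symm)]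
      · intro v _ hv
        unfold Mat
        simp only [or_true, if_true, if_neg hv, mul_zero]
      · intro h; exact absurd (mem_univ _) h
    · have hMr : ∀ x : V, x ≠ r → Mat K r r x = 0 := by
        intro x hx
        unfold Mat
        simp only [true_or, if_true]
        rw [if_neg (fun h => hx h.symm)]
      have hMd : ∀ x : V, x ≠ r → Mat K r x x = 0 := by
        intro x hx
        unfold Mat
        simp only [hx, or_self, if_false, if_true]
      have hMo : ∀ v x : V, v ≠ r → x ≠ r → v ≠ x → Mat K r v x = 1 + ind K v r + ind K v x := by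
        intro v x hv hx hvx
        unfold Mat
        simp only [hx, hv, hvx, or_self, if_false]
      by_cases huw : u = w
      · rw [← huw, Matrix.one_apply_eq]
        have e1 : (∑ v, Mat K r v u * Mat K r v u) =
            ∑ v ∈ (univ.erase r).erase u, Mat K r v u * Mat K r v u := by
          rw [← Finset.add_sum_erase univ _ (mem_univ r), hMr u hu, zero_mul, zero_add,
            ← Finset.add_sum_erase (univ.erase r) _ (Finset.mem_erase.mpr ⟨hu, mem_univ u⟩),
            hMd u hu, zero_mul, zero_add]
        rw [e1]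
        have e2 : ∀ v ∈ (univ.erase r).erase u, Mat K r v u * Mat K r v u =
            1 + F A (univ.erase v) r {u} := by
          intro v hv
          rw [Finset.mem_erase, Finset.mem_erase] at hv
          rw [hMo v u hv.2.1 hu hv.1, F_val1 H hv.2.1.symm hv.1.symm]
          have : ∀ i j : ZMod 2, (1 + i + j) * (1 + i + j) = 1 + (i + j) := by decide
          exact this _ _
        rw [Finset.sum_congr rfl e2, Finset.sum_add_distrib,
          law2 A hA univ r u (mem_univ _) (mem_univ _) hu, Finset.sum_const, nsmul_eq_mul, mul_one,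
          card_er (Finset.mem_erase.mpr ⟨hu, mem_univ u⟩), card_er (mem_univ r), hn]
        decide
      · rw [Matrix.one_apply_ne huw]
        have e1 : (∑ v, Mat K r v u * Mat K r v w) =
            ∑ v ∈ ((univ.erase r).erase u).erase w, Mat K r v u * Mat K r v w := by
          rw [← Finset.add_sum_erase univ _ (mem_univ r), hMr u hu, zero_mul, zero_add,
            ← Finset.add_sum_erase (univ.erase r) _ (Finset.mem_erase.mpr ⟨hu, mem_univ u⟩),
            hMd u hu, zero_mul, zero_add,
            ← Finset.add_sum_erase ((univ.erase r).erase u) _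
              (Finset.mem_erase.mpr ⟨fun h => huw h.symm,
                Finset.mem_erase.mpr ⟨hw, mem_univ w⟩⟩),
            hMd w hw, mul_zero, zero_add]
        rw [e1]
        have e2 : ∀ v ∈ ((univ.erase r).erase u).erase w, Mat K r v u * Mat K r v w =
            1 + (F A (univ.erase v) r {u, w} + F A (univ.erase v) u {r, w} +
              F A (univ.erase v) w {r, u}) := by
          intro v hv
          rw [Finset.mem_erase, Finset.mem_erase, Finset.mem_erase] at hv
          obtain ⟨h1, h2, h3, _⟩ := hv
          rw [hMo v u h3 hu h2, hMo v w h3 hw h1, F_val2 H h3.symm h2.symm h1.symm,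
            F_val2 H h2.symm h3.symm h1.symm, F_val2 H h1.symm h3.symm h2.symm]
          have : ∀ i j k : ZMod 2, (1 + i + j) * (1 + i + k) =
            1 + ((i + j) * (i + k) + (j + i) * (j + k) + (k + i) * (k + j)) := by decide
          exact this _ _ _
        rw [Finset.sum_congr rfl e2, Finset.sum_add_distrib,
          law3 A hA univ r u w (mem_univ _) (mem_univ _) (mem_univ _) hu hw huw,
          Finset.sum_const, nsmul_eq_mul, mul_one,
          card_er (Finset.mem_erase.mpr ⟨fun h => huw h.symm,
                Finset.mem_erase.mpr ⟨hw, mem_univ w⟩⟩),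
          card_er (Finset.mem_erase.mpr ⟨hu, mem_univ u⟩), card_er (mem_univ r), hn]
        decide

/-- intersection numbers of classes at two letters -/
def Nn (K : V → Finset V) (v w : V) (i j : ZMod 2) : ZMod 2 :=
  ∑ u ∈ (univ.erase v).erase w, (1 + i + ind K v u) * (1 + j + ind K w u)

/-- two classes at different letters with a common letter have an odd number of common letters -/
theorem Nn_one {A : V → V → ZMod 2} (hA : ∀ x y, A x y = A y x) {K : V → Finset V}
    (H : HypH A K) (hodd : Odd (Fintype.card V)) {v w r : V} (hvw : v ≠ w) (hrv : r ≠ v)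
    (hrw : r ≠ w) : Nn K v w (ind K v r) (ind K w r) = 1 := by
  have h := mul_eq_one_comm.mp (Mat_mul hA H hodd r)
  have h2 : (Mat K r * (Mat K r).transpose) v w = 0 := by
    rw [h, Matrix.one_apply_ne hvw]
  rw [Matrix.mul_apply] at h2
  simp only [Matrix.transpose_apply] at h2
  have hMv : ∀ x : V, x ≠ r → Mat K r x r = 0 := by
    intro x hx
    unfold Mat
    simp only [or_true, if_true]
    rw [if_neg hx]
  have hMd : ∀ x : V, x ≠ r → Mat K r x x = 0 := by
    intro x hx
    unfold Mat
    simp only [hx, or_self, if_false, if_true]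
  have hMo : ∀ v x : V, v ≠ r → x ≠ r → v ≠ x → Mat K r v x = 1 + ind K v r + ind K v x := by
    intro v x hv hx hvx
    unfold Mat
    simp only [hx, hv, hvx, or_self, if_false]
  have hrm : r ∈ (univ.erase v).erase w :=
    Finset.mem_erase.mpr ⟨hrw, Finset.mem_erase.mpr ⟨hrv, mem_univ r⟩⟩
  rw [← Finset.add_sum_erase univ _ (mem_univ v), hMd v hrv.symm, zero_mul, zero_add,
    ← Finset.add_sum_erase (univ.erase v) _ (Finset.mem_erase.mpr ⟨hvw.symm, mem_univ w⟩),
    hMd w hrw.symm, mul_zero, zero_add, ← Finset.add_sum_erase _ _ hrm, hMv v hrv.symm, zero_mul,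
    zero_add] at h2
  unfold Nn
  rw [← Finset.add_sum_erase _ _ hrm]
  have e1 : (∑ u ∈ ((univ.erase v).erase w).erase r, (1 + ind K v r + ind K v u) *
      (1 + ind K w r + ind K w u)) =
      ∑ u ∈ ((univ.erase v).erase w).erase r, Mat K r v u * Mat K r w u := by
    apply Finset.sum_congr rfl
    intro u hu
    rw [Finset.mem_erase, Finset.mem_erase, Finset.mem_erase] at hu
    rw [hMo v u hrv.symm hu.1 hu.2.2.1.symm, hMo w u hrw.symm hu.1 hu.2.1.symm]
  rw [e1, h2, add_zero]
  have : ∀ i j : ZMod 2, (1 + i + i) * (1 + j + j) = 1 := by decide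
  exact this _ _

/-- the classes are even -/
theorem size_even {A : V → V → ZMod 2} {K : V → Finset V}
    (H : HypH A K) (hodd : Odd (Fintype.card V)) (v : V) (i : ZMod 2) :
    ∑ u ∈ univ.erase v, (1 + i + ind K v u) = 0 := by
  have hn : ((univ : Finset V).card : ZMod 2) = 1 := by
    rw [Finset.card_univ]
    exact (ZMod.natCast_eq_one_iff_odd).mpr hodd
  have hK : ∑ u ∈ univ.erase v, ind K v u = 0 := by
    unfold ind
    have hsub : (univ.erase v) ∩ K v = K v := by
      apply Finset.inter_eq_right.mpr
      intro x hx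
      exact Finset.mem_erase.mpr ⟨fun h => H.mem v (h ▸ hx), mem_univ x⟩
    rw [Finset.sum_ite_mem, hsub, Finset.sum_const, nsmul_eq_mul, mul_one]
    exact (ZMod.natCast_eq_zero_iff_even).mpr (H.even v)
  rw [Finset.sum_add_distrib, hK, add_zero, Finset.sum_const, nsmul_eq_mul, card_er (mem_univ v),
    hn, z2_add, zero_mul]

theorem Nn_symm (K : V → Finset V) (v w : V) (i j : ZMod 2) : Nn K v w i j = Nn K w v j i := by
  unfold Nn
  rw [Finset.erase_right_comm]
  apply Finset.sum_congr rfl
  intro u _
  ring

theorem Nn_row {A : V → V → ZMod 2} {K : V → Finset V}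
    (H : HypH A K) (hodd : Odd (Fintype.card V)) {v w : V} (hvw : v ≠ w) (i : ZMod 2) :
    Nn K v w i 0 + Nn K v w i 1 = 1 + i + ind K v w := by
  have h := size_even H hodd v i
  rw [← Finset.add_sum_erase (univ.erase v) _ (Finset.mem_erase.mpr ⟨hvw.symm, mem_univ w⟩)] at h
  unfold Nn
  rw [← Finset.sum_add_distrib]
  have e1 : (∑ u ∈ (univ.erase v).erase w, ((1 + i + ind K v u) * (1 + 0 + ind K w u) +
      (1 + i + ind K v u) * (1 + 1 + ind K w u))) =
      ∑ u ∈ (univ.erase v).erase w, (1 + i + ind K v u) := by
    apply Finset.sum_congr rfl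
    intro u _
    have : ∀ p q : ZMod 2, p * (1 + 0 + q) + p * (1 + 1 + q) = p := by decide
    exact this _ _
  rw [e1]
  exact (z2_eq_of_add h).symm

/-- every class is nonempty -/
theorem class_ne {A : V → V → ZMod 2} {K : V → Finset V} (H : HypH A K) (v : V) (i : ZMod 2) :
    ∃ x, x ≠ v ∧ ind K v x = i := by
  rcases z2 i with hi | hi
  · obtain ⟨x, h1, h2⟩ := H.ne2 v
    refine ⟨x, h1, ?_⟩
    unfold ind
    rw [if_neg h2, hi]
  · obtain ⟨x, h1⟩ := H.ne1 v
    refine ⟨x, fun h => H.mem v (h ▸ h1), ?_⟩
    unfold ind
    rw [if_pos h1, hi]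

/-- at most one of three letters has the other two together -/
theorem at_most {A : V → V → ZMod 2} (hA : ∀ x y, A x y = A y x) {K : V → Finset V}
    (H : HypH A K) (hodd : Odd (Fintype.card V)) {v w u : V} (hvw : v ≠ w) (huv : u ≠ v)
    (huw : u ≠ w) (h1 : ind K v u = ind K v w) : ind K w u ≠ ind K w v := by
  intro h2
  have hN : Nn K v w (ind K v w) (ind K w v) = 1 := by
    rw [← h1, ← h2]
    exact Nn_one hA H hodd hvw huv huw
  obtain ⟨x, hx1, hx2⟩ := class_ne H v (1 + ind K v w)
  have hxw : x ≠ w := by
    intro h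
    rw [h] at hx2
    revert hx2
    generalize ind K v w = i
    revert i
    decide
  have hN1 : Nn K v w (1 + ind K v w) (ind K w x) = 1 := by
    rw [← hx2]
    exact Nn_one hA H hodd hvw hx1 hxw
  have hrow := Nn_row H hodd hvw (1 + ind K v w)
  have hcol := Nn_row H hodd hvw.symm (ind K w v)
  rw [← Nn_symm K v w 0 (ind K w v), ← Nn_symm K v w 1 (ind K w v)] at hcol
  -- finite check
  revert hN hN1 hrow hcol
  generalize ind K w x = k
  generalize ind K v w = i
  generalize ind K w v = j
  intro hN hN1 hrow hcol
  have hcol' : Nn K v w i j + Nn K v w (1 + i) j = 1 := by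
    have e : (1 : ZMod 2) + j + j = 1 := by
      rw [add_assoc, z2_add, add_zero]
    rw [e] at hcol
    rcases z2 i with hi | hi
    · rw [hi, add_zero]; exact hcol
    · have h11 : (1 : ZMod 2) + 1 = 0 := by decide
      rw [hi, h11, add_comm]; exact hcol
  have hrow' : ∀ p q : ZMod 2, Nn K v w (1 + i) p = Nn K v w (1 + i) q := by
    have e : (1 : ZMod 2) + (1 + i) + i = 0 := by
      rw [add_assoc, add_assoc, z2_add, add_zero, z2_add]
    rw [e] at hrow
    have h0 := z2_eq_of_add hrow
    intro p q
    rcases z2 p with hp | hp <;> rcases z2 q with hq | hq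
    · rw [hp, hq]
    · rw [hp, hq]; exact h0
    · rw [hp, hq]; exact h0.symm
    · rw [hp, hq]
  rw [hN, hrow' j k, hN1] at hcol'
  exact absurd hcol' (by decide)

/-- no class has three letters -/
theorem no_three {A : V → V → ZMod 2} (hA : ∀ x y, A x y = A y x) {K : V → Finset V}
    (H : HypH A K) (hodd : Odd (Fintype.card V)) {v a b c : V} (ha : a ≠ v) (hb : b ≠ v)
    (hc : c ≠ v) (hab : a ≠ b) (hac : a ≠ c) (hbc : b ≠ c) (h1 : ind K v a = ind K v b)
    (h2 : ind K v a = ind K v c) : False := by
  -- at a the letters b, c are together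
  have p1 : ind K a b ≠ ind K a v := at_most hA H hodd ha.symm hb hab.symm h1.symm
  have p2 : ind K a c ≠ ind K a v := at_most hA H hodd ha.symm hc hac.symm h2.symm
  have p3 : ind K a b = ind K a c := by
    revert p1 p2
    generalize ind K a b = i
    generalize ind K a c = j
    generalize ind K a v = k
    revert i j k
    decide
  -- at b the letters a, c are together
  have q1 : ind K b a ≠ ind K b v := at_most hA H hodd hb.symm ha hab h1
  have q2 : ind K b c ≠ ind K b v :=
    at_most hA H hodd hb.symm hc hbc.symm (h2.symm.trans h1)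
  have q3 : ind K b c = ind K b a := by
    revert q1 q2
    generalize ind K b a = i
    generalize ind K b c = j
    generalize ind K b v = k
    revert i j k
    decide
  exact at_most hA H hodd hab hac.symm hbc.symm p3.symm q3

/-- **Theorem A** -/
theorem thmA (A : V → V → ZMod 2) (hA : ∀ x y, A x y = A y x) (K : V → Finset V)
    (H : HypH A K) (hodd : Odd (Fintype.card V)) : Fintype.card V = 5 := by
  have hpos : 0 < Fintype.card V := hodd.pos
  obtain ⟨v⟩ := Fintype.card_pos_iff.mp hpos
  have hK2 : (K v).card ≤ 2 := by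
    by_contra h
    push Not at h
    obtain ⟨a, ha, b, hb, c, hc, hab, hac, hbc⟩ := Finset.two_lt_card.mp h
    have hne : ∀ x ∈ K v, x ≠ v := fun x hx h => H.mem v (h ▸ hx)
    have hi : ∀ x ∈ K v, ind K v x = 1 := fun x hx => by unfold ind; rw [if_pos hx]
    exact no_three hA H hodd (hne a ha) (hne b hb) (hne c hc) hab hac hbc
      ((hi a ha).trans (hi b hb).symm) ((hi a ha).trans (hi c hc).symm)
  have hL2 : ((univ.erase v) \ K v).card ≤ 2 := by
    by_contra h
    push Not at h
    obtain ⟨a, ha, b, hb, c, hc, hab, hac, hbc⟩ := Finset.two_lt_card.mp h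
    have hne : ∀ x ∈ (univ.erase v) \ K v, x ≠ v := fun x hx =>
      (Finset.mem_erase.mp (Finset.mem_sdiff.mp hx).1).1
    have hi : ∀ x ∈ (univ.erase v) \ K v, ind K v x = 0 := fun x hx => by
      unfold ind; rw [if_neg (Finset.mem_sdiff.mp hx).2]
    exact no_three hA H hodd (hne a ha) (hne b hb) (hne c hc) hab hac hbc
      ((hi a ha).trans (hi b hb).symm) ((hi a ha).trans (hi c hc).symm)
  have hsub : K v ⊆ univ.erase v := fun x hx =>
    Finset.mem_erase.mpr ⟨fun h => H.mem v (h ▸ hx), mem_univ x⟩
  have hcard : ((univ.erase v) \ K v).card + (K v).card = (univ.erase v).card :=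
    Finset.card_sdiff_add_card_eq_card hsub
  have hcard2 : (univ.erase v).card + 1 = Fintype.card V := by
    rw [Finset.card_erase_add_one (mem_univ v), Finset.card_univ]
  have hKpos : 0 < (K v).card := Finset.card_pos.mpr (H.ne1 v)
  have hLpos : 0 < ((univ.erase v) \ K v).card := by
    obtain ⟨x, h1, h2⟩ := H.ne2 v
    exact Finset.card_pos.mpr ⟨x, Finset.mem_sdiff.mpr ⟨Finset.mem_erase.mpr ⟨h1, mem_univ x⟩, h2⟩⟩
  obtain ⟨k, hk⟩ := H.even v
  obtain ⟨m, hm⟩ := hodd
  omega

end Pool.LAW
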